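import Pool.Agent.TH717.GO.Core
import Pool.Agent.TH717.GO.Beta

/-!
Curves given by few exponentials with polynomial coefficients: one exceptional form.
-/

set_option autoImplicit false

namespace Pool.Agent.Q33.OD

open MvPolynomial Filter Topology

/-- For `τ` outside a countable set, `α ↦ exp (α τ)` is injective on a finitely generated group. -/
theorem generic_time (Λ : Finset ℂ) :
    Dense {τ : ℂ | ∀ α ∈ AddSubgroup.closure (Λ : Set ℂ), Complex.exp (α * τ) = 1 → α = 0} := by
  have hc : Countable (AddSubgroup.closure (Λ : Set ℂ)) := by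
    have : AddGroup.FG (AddSubgroup.closure (Λ : Set ℂ)) := by
      rw [AddGroup.fg_iff_addSubgroup_fg]
      exact ⟨Λ, rfl⟩
    have : Module.Finite ℤ (AddSubgroup.closure (Λ : Set ℂ)) := by
      rw [Module.Finite.iff_addGroup_fg]
      exact this
    exact Finsupp.Countable.of_moduleFinite (R := ℤ)
  have h1 : (⋃ p : AddSubgroup.closure (Λ : Set ℂ) × ℤ,
      {τ : ℂ | (p.1 : ℂ) ≠ 0 ∧ τ = (p.2 : ℂ) * (2 * Real.pi * Complex.I) / p.1}).Countable := by
    apply Set.countable_iUnion
    intro p
    apply Set.Subsingleton.countable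
    rintro a ⟨_, ha⟩ b ⟨_, hb⟩
    rw [ha, hb]
  refine (h1.dense_compl ℂ).mono ?_
  intro τ hτ α hα he
  by_contra h0
  apply hτ
  rw [Complex.exp_eq_one_iff] at he
  obtain ⟨m, hm⟩ := he
  rw [Set.mem_iUnion]
  refine ⟨(⟨α, hα⟩, m), h0, ?_⟩
  rw [eq_div_iff h0]
  linear_combination hm

theorem few_exp_core {k : Type} [Field k] [CharZero k] {N : ℕ}
    (FF : Set (MvPolynomial (Fin (N + 1)) k)) (hhom : ∀ F ∈ FF, ∃ e, F.IsHomogeneous e)
    (G : MvPolynomial (Fin (N + 1)) k) (s : ℕ) (hG3' : Pool.Agent.TH717.GO.CurCond FF G (s * s))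
    [Algebra k ℂ] (n : ℕ) (Λ : Finset ℂ) (q : ℂ → ℕ → Fin (N + 1) → ℂ)
    (h : ℂ → Fin (N + 1) → ℂ) (hns : n ≤ s) (hΛ : Λ.card ≤ s)
    (hh : ∀ t j, h t j = ∑ μ ∈ Λ, ∑ a ∈ Finset.range n, Complex.exp (μ * t) * t ^ a * q μ a j)
    (hF : ∀ F ∈ FF, ∀ t, aeval (h t) F = 0) (hG : aeval (h 0) G ≠ 0) (t : ℂ)
    (i j : Fin (N + 1)) : h t i * h 0 j = h t j * h 0 i := by
  classical
  have hG3 := Pool.Agent.TH717.GO.exp_poly_core FF hhom G s s hG3'
  -- the statement for generic times
  have key : ∀ τ ∈ {τ : ℂ | ∀ α ∈ AddSubgroup.closure (Λ : Set ℂ), Complex.exp (α * τ) = 1 → α = 0},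
      h τ i * h 0 j = h τ j * h 0 i := by
    intro τ hτ
    let Γ := AddSubgroup.closure (Λ : Set ℂ)
    let φ : Multiplicative Γ →* ℂˣ :=
      { toFun := fun g => Units.mk0 (Complex.exp (((Multiplicative.toAdd g : Γ) : ℂ) * τ))
          (Complex.exp_ne_zero _)
        map_one' := by
          ext
          simp
        map_mul' := fun g g' => by
          ext
          simp [add_mul, Complex.exp_add] }
    have hφv : ∀ g, ((φ g : ℂˣ) : ℂ) = Complex.exp (((Multiplicative.toAdd g : Γ) : ℂ) * τ) :=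
      fun g => rfl
    have hφ : Function.Injective φ := by
      rw [injective_iff_map_eq_one]
      intro g hg
      have h1 := congrArg (fun u : ℂˣ => (u : ℂ)) hg
      simp only [hφv, Units.val_one] at h1
      have h2 := hτ _ (Multiplicative.toAdd g).2 h1
      exact Multiplicative.toAdd.injective (Subtype.ext h2)
    let E : Multiplicative Γ ≃* φ.range := MonoidHom.ofInjective hφ
    have hEv : ∀ g, (((E g : φ.range) : ℂˣ) : ℂ) =
        Complex.exp (((Multiplicative.toAdd g : Γ) : ℂ) * τ) := fun g => rfl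
    let S : Finset φ.range := Λ.attach.image
      fun μ => E (Multiplicative.ofAdd ⟨μ.1, AddSubgroup.subset_closure μ.2⟩)
    have hSs : S.card ≤ s := Finset.card_image_le.trans (by rw [Finset.card_attach]; exact hΛ)
    have hfg : Group.FG φ.range := by
      have h1 : AddGroup.FG Γ := by
        rw [AddGroup.fg_iff_addSubgroup_fg]
        exact ⟨Λ, rfl⟩
      have h2 : Group.FG (Multiplicative Γ) := GroupFG.iff_add_fg.2 h1
      exact Group.fg_of_surjective (f := E.toMonoidHom) E.surjective
    obtain ⟨β, hβ⟩ := Pool.Agent.TH717.GO.exists_beta hfg (by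
      intro g m hm hg
      obtain ⟨g, rfl⟩ := E.surjective g
      rw [← map_pow] at hg
      have h1 : g ^ m = 1 := by
        apply E.injective
        rw [hg, map_one]
      have h2 := congrArg (fun x => ((Multiplicative.toAdd x : Γ) : ℂ)) h1
      simp only [toAdd_pow, toAdd_one, AddSubgroup.coe_nsmul, nsmul_eq_mul, ZeroMemClass.coe_zero,
        mul_eq_zero, Nat.cast_eq_zero] at h2
      have h3 := h2.resolve_left hm.ne'
      have h4 : g = 1 := Multiplicative.toAdd.injective (Subtype.ext h3)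
      rw [h4, map_one]) S
    let lg : φ.range → ℂ := fun x => ((Multiplicative.toAdd (E.symm x) : Γ) : ℂ)
    let a : Fin (N + 1) → φ.range → Polynomial ℂ := fun i x =>
      ∑ b ∈ Finset.range n, Polynomial.C (τ ^ b * q (lg x) b i) * Polynomial.X ^ b
    have ha : ∀ i, ∀ μ ∈ S, (a i μ).degree < s := by
      intro i μ _
      refine lt_of_le_of_lt (Polynomial.degree_sum_le _ _) ?_
      rw [Finset.sup_lt_iff (WithBot.bot_lt_coe _)]
      intro b hb
      refine lt_of_le_of_lt (Polynomial.degree_C_mul_X_pow_le _ _) ?_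
      have h1 := Finset.mem_range.1 hb
      exact_mod_cast lt_of_lt_of_le h1 hns
    have hsum : ∀ (i : Fin (N + 1)) (m : ℕ),
        ∑ μ ∈ S, (a i μ).eval (m : ℂ) * ((μ : ℂˣ) : ℂ) ^ m = h ((m : ℂ) * τ) i := by
      intro i m
      rw [Finset.sum_image, hh, ← Finset.sum_attach Λ]
      · refine Finset.sum_congr rfl fun μ _ => ?_
        rw [hEv]
        simp only [a, lg, MulEquiv.symm_apply_apply, toAdd_ofAdd, Polynomial.eval_finsetSum,
          Polynomial.eval_mul, Polynomial.eval_C, Polynomial.eval_pow, Polynomial.eval_X,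
          Finset.sum_mul]
        refine Finset.sum_congr rfl fun b _ => ?_
        rw [← Complex.exp_nat_mul, mul_pow]
        rw [show (m : ℂ) * (μ.1 * τ) = μ.1 * (m * τ) by ring]
        ring
      · intro μ _ ν _ h1
        have h2 := E.injective h1
        have h3 := congrArg (fun x => ((Multiplicative.toAdd x : Γ) : ℂ)) h2
        exact Subtype.ext h3
    have h0 : ∀ i : Fin (N + 1), ∑ μ ∈ S, (a i μ).eval 0 = h 0 i := by
      intro i
      have := hsum i 0
      simpa using this
    have h1 := hG3 ℂ φ.range S hSs β hβ a ha (by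
      intro F hF' m
      have h2 : (fun i => ∑ μ ∈ S, (a i μ).eval (m : ℂ) * ((μ : ℂˣ) : ℂ) ^ m) = h ((m : ℂ) * τ) :=
        funext fun i => hsum i m
      rw [h2]
      exact hF F hF' _) (by
      have h2 : (fun i => ∑ μ ∈ S, (a i μ).eval (0 : ℂ)) = h 0 := funext fun i => h0 i
      rw [h2]
      exact hG) i j 1
    rw [hsum, hsum, h0, h0] at h1
    simpa using h1
  have hcont : ∀ i, Continuous fun t => h t i := by
    intro i
    have : (fun t => h t i) = fun t => ∑ μ ∈ Λ, ∑ a ∈ Finset.range n,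
        Complex.exp (μ * t) * t ^ a * q μ a i := funext fun t => hh t i
    rw [this]
    fun_prop
  have h1 := Continuous.ext_on (generic_time Λ) (f := fun t => h t i * h 0 j)
    (g := fun t => h t j * h 0 i) ((hcont i).mul continuous_const) ((hcont j).mul continuous_const)
    key
  exact congrFun h1 t

end Pool.Agent.Q33.OD
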