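import Pool.Agent.TH717.GO.Core
import Pool.Agent.TH717.GO.Beta
import Pool.Agent.Q33.SP.Sets
import Pool.Agent.Q33.OD.Sample

/-!
Entire curves given by exponential polynomials with `r` terms: a curve with `r` terms through each
point, with a boundary.
-/

set_option autoImplicit false

namespace Pool.Agent.Q33.OD

open Filter Topology Pool.Agent.TH717.GO

section ring

open Polynomial

variable {L : Type} [Field L] (Λ : Subgroup Lˣ)

/-- the boundary along the curve -/
theorem aeval_crvQ [CharZero L] {n : ℕ} (β : Λ →* Multiplicative ℤ) (B : ℕ) (S : Finset Λ)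
    (hB : ∀ μ ∈ S, 0 ≤ Multiplicative.toAdd (β μ) + (B : ℤ)) (a : Fin (n + 1) → Λ → Polynomial L)
    (Q : MvPolynomial (Fin (n + 1)) L) {e : ℕ} (hQ : Q.IsHomogeneous e) (ν : Λ) {c : L} (hc : c ≠ 0)
    (h : ∀ m : ℕ, MvPolynomial.aeval (fun i => ev Λ (mk Λ S (a i)) m) Q = c * ((ν : Lˣ) : L) ^ m) :
    ∃ M : ℕ, MvPolynomial.aeval (fun i =>
      crv S (fun μ => (Multiplicative.toAdd (β μ) + (B : ℤ)).toNat) (a i)) Q = C c * X ^ M := by
  let f : L →+* EP Λ := (MonoidAlgebra.singleOneRingHom (R := Polynomial L) (M := Λ)).comp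
    (algebraMap L (Polynomial L))
  have h0 : MvPolynomial.eval₂ f (fun i => mk Λ S (a i)) Q = MonoidAlgebra.single ν (C c) := by
    apply ev_injective Λ
    funext m
    have h1 := h m
    rw [MvPolynomial.aeval_def] at h1
    let evm : EP Λ →+* L := (Pi.evalRingHom (fun _ : ℕ => L) m).comp (ev Λ)
    have h2 : evm (MvPolynomial.eval₂ f (fun i => mk Λ S (a i)) Q) =
        evm (MonoidAlgebra.single ν (C c)) := by
      rw [MvPolynomial.hom_eval₂]
      have h3 : evm.comp f = algebraMap L L := by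
        refine RingHom.ext fun x => ?_
        show ev Λ (MonoidAlgebra.single 1 (algebraMap L (Polynomial L) x)) m = _
        rw [ev_single, Polynomial.algebraMap_apply, eval_C]
        simp
      rw [h3]
      refine h1.trans ?_
      show _ = ev Λ (MonoidAlgebra.single ν (C c)) m
      rw [ev_single, eval_C]
    exact h2
  have h4 : Function.Injective (algebraMap (Polynomial L) (RatFunc L)) :=
    RatFunc.algebraMap_injective L
  have h5 : (algebraMap (Polynomial L) (RatFunc L)).comp (algebraMap L (Polynomial L)) =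
      (phi Λ β).comp f := by
    refine RingHom.ext fun x => ?_
    show algebraMap (Polynomial L) (RatFunc L) (algebraMap L (Polynomial L) x) =
      phi Λ β (MonoidAlgebra.single 1 (algebraMap L (Polynomial L) x))
    rw [phi_single, map_one, toAdd_one, zpow_zero, mul_one, Polynomial.algebraMap_apply]
    congr 1
    show C _ = (C _ : Polynomial L).comp _
    rw [C_comp]
  have h6 : (fun i => algebraMap (Polynomial L) (RatFunc L)
      (crv S (fun μ => (Multiplicative.toAdd (β μ) + (B : ℤ)).toNat) (a i))) =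
      fun i => RatFunc.X ^ B * phi Λ β (mk Λ S (a i)) := by
    funext i
    exact phi_mk Λ β B S hB (a i)
  set P : Polynomial L := MvPolynomial.aeval (fun i =>
      crv S (fun μ => (Multiplicative.toAdd (β μ) + (B : ℤ)).toNat) (a i)) Q with hP
  have h8 : algebraMap (Polynomial L) (RatFunc L) P =
      (RatFunc.X ^ B) ^ e * (algebraMap (Polynomial L) (RatFunc L) (C c) *
        RatFunc.X ^ (Multiplicative.toAdd (β ν))) := by
    rw [hP, MvPolynomial.aeval_def, MvPolynomial.hom_eval₂, h5, h6, eval₂_scale _ _ _ Q e hQ,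
      ← MvPolynomial.hom_eval₂, h0, phi_single]
    congr 2
    show algebraMap _ _ ((C c : Polynomial L).comp _) = _
    rw [C_comp]
  have hX : (RatFunc.X : RatFunc L) ≠ 0 := RatFunc.X_ne_zero
  by_cases hpos : 0 ≤ (B * e : ℕ) + Multiplicative.toAdd (β ν)
  · refine ⟨((B * e : ℕ) + Multiplicative.toAdd (β ν)).toNat, ?_⟩
    apply h4
    rw [h8, map_mul, map_pow, RatFunc.algebraMap_X, ← pow_mul, ← zpow_natCast RatFunc.X
      ((B * e : ℕ) + Multiplicative.toAdd (β ν)).toNat, Int.toNat_of_nonneg hpos,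
      zpow_add₀ hX, zpow_natCast]
    ring
  · exfalso
    push Not at hpos
    obtain ⟨k, hk0, hk⟩ : ∃ k : ℕ, 0 < k ∧
        (B * e : ℕ) + Multiplicative.toAdd (β ν) + (k : ℤ) = 0 :=
      ⟨(-((B * e : ℕ) + Multiplicative.toAdd (β ν))).toNat, by omega, by omega⟩
    have h9 : P * X ^ k = C c := by
      apply h4
      rw [map_mul, map_pow, RatFunc.algebraMap_X, h8, ← pow_mul, ← zpow_natCast RatFunc.X k,
        ← zpow_natCast RatFunc.X (B * e)]
      have h10 : (RatFunc.X : RatFunc L) ^ ((B * e : ℕ) : ℤ) *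
          RatFunc.X ^ (Multiplicative.toAdd (β ν)) * RatFunc.X ^ (k : ℤ) = 1 := by
        rw [← zpow_add₀ hX, ← zpow_add₀ hX, hk, zpow_zero]
      linear_combination (algebraMap (Polynomial L) (RatFunc L) (C c)) * h10
    have h11 := congrArg (fun R => Polynomial.eval 0 R) h9
    simp only [eval_mul, eval_pow, eval_X, eval_C, zero_pow hk0.ne', mul_zero] at h11
    exact hc h11.symm

/-- the exponents of the curve, with multiplicities -/
theorem crv_supportW {ι : Type} [DecidableEq ι] (S : Finset ι) (b : ι → ℕ) (m : ι → ℕ) :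
    ∃ T : Finset ℕ, T.card ≤ ∑ μ ∈ S, m μ ∧ ∀ a : ι → Polynomial L,
      (∀ μ ∈ S, (a μ).degree < m μ) → (crv S b a).support ⊆ T := by
  classical
  refine ⟨S.biUnion fun μ => (Finset.range (m μ)).image fun j => j + b μ, ?_, ?_⟩
  · refine Finset.card_biUnion_le.trans ?_
    exact Finset.sum_le_sum fun μ _ => Finset.card_image_le.trans (by simp)
  · intro a ha t ht
    rw [Polynomial.mem_support_iff] at ht
    unfold crv at ht
    rw [Polynomial.finsetSum_coeff] at ht
    obtain ⟨μ, hμ, hne⟩ := Finset.exists_ne_zero_of_sum_ne_zero ht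
    rw [Polynomial.coeff_mul_X_pow'] at hne
    split_ifs at hne with hb
    · refine Finset.mem_biUnion.2 ⟨μ, hμ, Finset.mem_image.2 ⟨t - b μ, ?_, by omega⟩⟩
      rw [Finset.mem_range]
      by_contra hlt
      push Not at hlt
      apply hne
      apply Polynomial.coeff_eq_zero_of_degree_lt
      rw [dn_degree]
      exact lt_of_lt_of_le (ha μ hμ) (by exact_mod_cast hlt)
    · exact absurd rfl hne

end ring

open MvPolynomial Pool.Agent.Q33.SP

/-- **Entire curves given by exponential polynomials.** -/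
theorem sp_of_epc {N r : ℕ} {ι : Type} {F : ι → MvPolynomial (Fin (N + 1)) ℂ}
    (hFh : ∀ i, ∃ d, (F i).IsHomogeneous d) {Q : MvPolynomial (Fin (N + 1)) ℂ} {e0 : ℕ}
    (hQh : Q.IsHomogeneous e0) {Λ : Finset ℂ} {mu : ℂ → ℕ} (hmu : ∑ μ ∈ Λ, mu μ ≤ r)
    {q : ℂ → ℕ → Fin (N + 1) → ℂ} {h : ℂ → Fin (N + 1) → ℂ}
    (hh : ∀ t j, h t j = ∑ μ ∈ Λ, ∑ a ∈ Finset.range (mu μ), Complex.exp (μ * t) * t ^ a * q μ a j)
    (hF : ∀ i t, eval (h t) (F i) = 0) {γ : ℂ} (hQ0 : eval (h 0) Q ≠ 0)
    (hQ : ∀ t, eval (h t) Q = eval (h 0) Q * Complex.exp (γ * t))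
    (hnc : ∃ t i j, h t i * h 0 j ≠ h t j * h 0 i) :
    ∃ (e : Fin r → ℕ) (P : Fin (N + 1) → Polynomial ℂ), IsSp F Q e P ∧
      ∀ i, (P i).eval 1 = h 0 i := by
  classical
  obtain ⟨t1, i1, j1, hij⟩ := hnc
  have hcont : ∀ i, Continuous fun t => h t i := by
    intro i
    have : (fun t => h t i) = fun t => ∑ μ ∈ Λ, ∑ a ∈ Finset.range (mu μ),
        Complex.exp (μ * t) * t ^ a * q μ a i := funext fun t => hh t i
    rw [this]
    fun_prop
  -- a generic time
  obtain ⟨τ, hτ, hτ1⟩ : ∃ τ : ℂ, (∀ α ∈ AddSubgroup.closure ((insert γ Λ : Finset ℂ) : Set ℂ),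
      Complex.exp (α * τ) = 1 → α = 0) ∧ h τ i1 * h 0 j1 ≠ h τ j1 * h 0 i1 := by
    have h1 : IsOpen {τ : ℂ | h τ i1 * h 0 j1 ≠ h τ j1 * h 0 i1} :=
      isOpen_ne_fun ((hcont i1).mul continuous_const) ((hcont j1).mul continuous_const)
    obtain ⟨τ, h2, h3⟩ := (generic_time (insert γ Λ)).inter_open_nonempty _ h1 ⟨t1, hij⟩
    exact ⟨τ, h3, h2⟩
  let Γ := AddSubgroup.closure ((insert γ Λ : Finset ℂ) : Set ℂ)
  have hΓ : ∀ μ ∈ Λ, μ ∈ Γ := fun μ hμ => AddSubgroup.subset_closure (by simp [hμ])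
  let φ : Multiplicative Γ →* ℂˣ :=
    { toFun := fun g => Units.mk0 (Complex.exp (((Multiplicative.toAdd g : Γ) : ℂ) * τ))
        (Complex.exp_ne_zero _)
      map_one' := by
        ext
        simp
      map_mul' := fun g g' => by
        ext
        simp [add_mul, Complex.exp_add] }
  have hφv : ∀ g, ((φ g : ℂˣ) : ℂ) = Complex.exp (((Multiplicative.toAdd g : Γ) : ℂ) * τ) :=
    fun g => rfl
  have hφ : Function.Injective φ := by
    rw [injective_iff_map_eq_one]
    intro g hg
    have h1 := congrArg (fun u : ℂˣ => (u : ℂ)) hg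
    simp only [hφv, Units.val_one] at h1
    have h2 := hτ _ (Multiplicative.toAdd g).2 h1
    exact Multiplicative.toAdd.injective (Subtype.ext h2)
  let E : Multiplicative Γ ≃* φ.range := MonoidHom.ofInjective hφ
  have hEv : ∀ g, (((E g : φ.range) : ℂˣ) : ℂ) =
      Complex.exp (((Multiplicative.toAdd g : Γ) : ℂ) * τ) := fun g => rfl
  let pt : Λ → φ.range := fun μ => E (Multiplicative.ofAdd ⟨μ.1, hΓ μ.1 μ.2⟩)
  let S : Finset φ.range := Λ.attach.image pt
  have hptinj : ∀ μ ∈ Λ.attach, ∀ ν ∈ Λ.attach, pt μ = pt ν → μ = ν := by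
    intro μ _ ν _ h1
    have h2 := E.injective h1
    have h3 := congrArg (fun x => ((Multiplicative.toAdd x : Γ) : ℂ)) h2
    exact Subtype.ext h3
  have hfg : Group.FG φ.range := by
    have h1 : AddGroup.FG Γ := by
      rw [AddGroup.fg_iff_addSubgroup_fg]
      exact ⟨insert γ Λ, rfl⟩
    have h2 : Group.FG (Multiplicative Γ) := GroupFG.iff_add_fg.2 h1
    exact Group.fg_of_surjective (f := E.toMonoidHom) E.surjective
  obtain ⟨β, hβ⟩ := exists_beta hfg (by
    intro g m hm hg
    obtain ⟨g, rfl⟩ := E.surjective g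
    rw [← map_pow] at hg
    have h1 : g ^ m = 1 := by
      apply E.injective
      rw [hg, map_one]
    have h2 := congrArg (fun x => ((Multiplicative.toAdd x : Γ) : ℂ)) h1
    simp only [toAdd_pow, toAdd_one, AddSubgroup.coe_nsmul, nsmul_eq_mul, ZeroMemClass.coe_zero,
      mul_eq_zero, Nat.cast_eq_zero] at h2
    have h3 := h2.resolve_left hm.ne'
    have h4 : g = 1 := Multiplicative.toAdd.injective (Subtype.ext h3)
    rw [h4, map_one]) S
  let lg : φ.range → ℂ := fun x => ((Multiplicative.toAdd (E.symm x) : Γ) : ℂ)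
  have hlg : ∀ μ : Λ, lg (pt μ) = μ.1 := by
    intro μ
    simp only [lg, pt, MulEquiv.symm_apply_apply, toAdd_ofAdd]
  let a : Fin (N + 1) → φ.range → Polynomial ℂ := fun i x =>
    ∑ b ∈ Finset.range (mu (lg x)), Polynomial.C (τ ^ b * q (lg x) b i) * Polynomial.X ^ b
  have ha : ∀ i x, (a i x).degree < mu (lg x) := by
    intro i x
    refine lt_of_le_of_lt (Polynomial.degree_sum_le _ _) ?_
    rw [Finset.sup_lt_iff (WithBot.bot_lt_coe _)]
    intro b hb
    refine lt_of_le_of_lt (Polynomial.degree_C_mul_X_pow_le _ _) ?_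
    have h1 := Finset.mem_range.1 hb
    exact_mod_cast h1
  have hSsum : ∀ g : φ.range → ℕ, ∑ x ∈ S, g x = ∑ μ ∈ Λ.attach, g (pt μ) := fun g =>
    Finset.sum_image hptinj
  have hmuS : ∑ x ∈ S, mu (lg x) ≤ r := by
    rw [hSsum]
    simp only [hlg]
    rw [Finset.sum_attach Λ (fun μ => mu μ)]
    exact hmu
  have hmur : ∀ x ∈ S, mu (lg x) ≤ r := fun x hx =>
    (Finset.single_le_sum (f := fun x => mu (lg x)) (fun _ _ => Nat.zero_le _) hx).trans hmuS
  have hsum : ∀ (i : Fin (N + 1)) (m : ℕ),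
      ∑ μ ∈ S, (a i μ).eval (m : ℂ) * ((μ : ℂˣ) : ℂ) ^ m = h ((m : ℂ) * τ) i := by
    intro i m
    rw [Finset.sum_image hptinj, hh, ← Finset.sum_attach Λ]
    refine Finset.sum_congr rfl fun μ _ => ?_
    simp only [a, hlg]
    rw [hEv]
    simp only [toAdd_ofAdd, Polynomial.eval_finsetSum,
      Polynomial.eval_mul, Polynomial.eval_C, Polynomial.eval_pow, Polynomial.eval_X,
      Finset.sum_mul]
    refine Finset.sum_congr rfl fun b _ => ?_
    rw [← Complex.exp_nat_mul, mul_pow]
    rw [show (m : ℂ) * (μ.1 * τ) = μ.1 * (m * τ) by ring]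
    ring
  have h0 : ∀ i : Fin (N + 1), ∑ μ ∈ S, (a i μ).eval 0 = h 0 i := by
    intro i
    have := hsum i 0
    simpa using this
  -- exponents, separated by `r`
  let β' : φ.range →* Multiplicative ℤ := (powMonoidHom r).comp β
  have hβ' : ∀ μ, Multiplicative.toAdd (β' μ) = r * Multiplicative.toAdd (β μ) := by
    intro μ
    show Multiplicative.toAdd (β μ ^ r) = _
    rw [toAdd_pow]
    simp
  let B : ℕ := ∑ μ ∈ S, (Multiplicative.toAdd (β' μ)).natAbs
  have hB : ∀ μ ∈ S, 0 ≤ Multiplicative.toAdd (β' μ) + (B : ℤ) := by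
    intro μ hμ
    have h1 : (Multiplicative.toAdd (β' μ)).natAbs ≤ B :=
      Finset.single_le_sum (f := fun μ => (Multiplicative.toAdd (β' μ)).natAbs)
        (fun _ _ => Nat.zero_le _) hμ
    omega
  let b : φ.range → ℕ := fun μ => (Multiplicative.toAdd (β' μ) + (B : ℤ)).toNat
  have hb : ∀ μ ∈ S, ∀ ν ∈ S, μ ≠ ν → b μ + r ≤ b ν ∨ b ν + r ≤ b μ := by
    intro μ hμ ν hν hne
    have h1 : Multiplicative.toAdd (β μ) ≠ Multiplicative.toAdd (β ν) := fun h =>
      hne (hβ hμ hν (Multiplicative.toAdd.injective h))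
    have h2 := Int.toNat_of_nonneg (hB μ hμ)
    have h3 := Int.toNat_of_nonneg (hB ν hν)
    have h4 : ((b μ : ℕ) : ℤ) = r * Multiplicative.toAdd (β μ) + B := by
      rw [← hβ']; exact h2
    have h5 : ((b ν : ℕ) : ℤ) = r * Multiplicative.toAdd (β ν) + B := by
      rw [← hβ']; exact h3
    rcases lt_or_gt_of_ne h1 with h | h
    · left
      have h6 : (r : ℤ) * (Multiplicative.toAdd (β μ) + 1) ≤ r * Multiplicative.toAdd (β ν) :=
        mul_le_mul_of_nonneg_left (by omega) (by positivity)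
      zify
      rw [h4, h5]
      linarith
    · right
      have h6 : (r : ℤ) * (Multiplicative.toAdd (β ν) + 1) ≤ r * Multiplicative.toAdd (β μ) :=
        mul_le_mul_of_nonneg_left (by omega) (by positivity)
      zify
      rw [h4, h5]
      linarith
  obtain ⟨T, hT1, hT2⟩ := crv_supportW (L := ℂ) S b fun x => mu (lg x)
  set P : Fin (N + 1) → Polynomial ℂ := fun i => crv S b (a i) with hP
  have hev : ∀ i, (P i).eval 1 = h 0 i := fun i => (crv_eval_one S b (a i)).trans (h0 i)
  obtain ⟨c, l, hcl⟩ := exists_cur P T (fun i => hT2 (a i) fun μ _ => ha i μ) r (hT1.trans hmuS)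
  refine ⟨l, P, ⟨⟨c, funext fun i => (hcl i).symm⟩, ?_, ?_, ?_⟩, hev⟩
  · intro i
    refine aeval_crv φ.range β' B S hB a (F i) (hFh i) fun m => ?_
    simp only [ev_mk]
    have h2 : (fun i => ∑ μ ∈ S, (a i μ).eval (m : ℂ) * ((μ : ℂˣ) : ℂ) ^ m) = h ((m : ℂ) * τ) :=
      funext fun i => hsum i m
    rw [h2]
    exact hF i _
  · let ν : φ.range := E (Multiplicative.ofAdd ⟨γ, AddSubgroup.subset_closure (by simp)⟩)
    obtain ⟨M, hM⟩ := aeval_crvQ φ.range β' B S hB a Q hQh ν hQ0 (by
      intro m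
      simp only [ev_mk]
      have h2 : (fun i => ∑ μ ∈ S, (a i μ).eval (m : ℂ) * ((μ : ℂˣ) : ℂ) ^ m) = h ((m : ℂ) * τ) :=
        funext fun i => hsum i m
      rw [h2]
      refine (hQ _).trans ?_
      rw [hEv, ← Complex.exp_nat_mul]
      simp only [toAdd_ofAdd]
      rw [show (m : ℂ) * (γ * τ) = γ * (m * τ) by ring])
    exact ⟨_, M, hQ0, hM⟩
  · by_contra hcon
    push Not at hcon
    apply hτ1
    set u : ℂ := h 0 i1 with hu
    set u' : ℂ := h 0 j1 with hu'
    have hPe : P i1 * Polynomial.C u' = P j1 * Polynomial.C u := by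
      have h7 : P i1 * Polynomial.C u' - P j1 * Polynomial.C u = 0 := by
        apply poly_zero_of_ne
        intro s hs
        have h8 := hcon s 1 i1 j1 hs one_ne_zero
        rw [hev, hev] at h8
        rw [Polynomial.eval_sub, Polynomial.eval_mul, Polynomial.eval_mul, Polynomial.eval_C,
          Polynomial.eval_C, h8, sub_self]
      exact sub_eq_zero.1 h7
    let cc : φ.range → Polynomial ℂ := fun μ => a i1 μ * Polynomial.C u' - a j1 μ * Polynomial.C u
    have hc0 : crv S b cc = 0 := by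
      have h1 : crv S b cc = crv S b (a i1) * Polynomial.C u' - crv S b (a j1) * Polynomial.C u := by
        unfold crv
        rw [Finset.sum_mul, Finset.sum_mul, ← Finset.sum_sub_distrib]
        refine Finset.sum_congr rfl fun μ _ => ?_
        have h2 : dn ℂ (cc μ) = dn ℂ (a i1 μ) * Polynomial.C u' - dn ℂ (a j1 μ) * Polynomial.C u := by
          have h3 : ∀ v : ℂ, dn ℂ (Polynomial.C v) = Polynomial.C v := fun v => by
            show (Polynomial.C v).comp _ = _
            rw [Polynomial.C_comp]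
          show dn ℂ (a i1 μ * Polynomial.C u' - a j1 μ * Polynomial.C u) = _
          rw [map_sub, map_mul, map_mul, h3, h3]
        rw [h2]
        ring
      rw [h1]
      exact sub_eq_zero.2 hPe
    have hcdeg : ∀ μ ∈ S, (cc μ).degree < r := by
      intro μ hμ
      have h1 : ∀ (P : Polynomial ℂ) (v : ℂ), P.degree < r → (P * Polynomial.C v).degree < r := by
        intro P v hP
        refine lt_of_le_of_lt ?_ hP
        calc (P * Polynomial.C v).degree ≤ P.degree + (Polynomial.C v).degree :=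
              Polynomial.degree_mul_le _ _
          _ ≤ P.degree + 0 := by gcongr; exact Polynomial.degree_C_le
          _ = P.degree := add_zero _
      have h2 : ∀ i, (a i μ).degree < r := fun i =>
        lt_of_lt_of_le (ha i μ) (by exact_mod_cast hmur μ hμ)
      exact lt_of_le_of_lt (Polynomial.degree_sub_le _ _) (max_lt (h1 _ _ (h2 i1)) (h1 _ _ (h2 j1)))
    have hc := crv_sep S b r hb cc hcdeg hc0
    have h9 : h ((1 : ℕ) * τ) i1 * u' = h ((1 : ℕ) * τ) j1 * u := by
      rw [← hsum, ← hsum, Finset.sum_mul, Finset.sum_mul, ← sub_eq_zero, ← Finset.sum_sub_distrib]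
      refine Finset.sum_eq_zero fun μ hμ => ?_
      have h1 := congrArg (fun P => Polynomial.eval ((1 : ℕ) : ℂ) P) (hc μ hμ)
      simp only [cc, Polynomial.eval_sub, Polynomial.eval_mul, Polynomial.eval_C,
        Polynomial.eval_zero] at h1
      linear_combination (((μ : ℂˣ) : ℂ) ^ 1) * h1
    simpa using h9

end Pool.Agent.Q33.OD
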