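import Pool.Agent.TH717.GO.Hyp
import Pool.Agent.TH717.GO.Core

/-!
Curves with few exponents in an algebraic set lie in finitely many uniruled closed subvarieties.
-/

set_option autoImplicit false

namespace Pool.Agent.Q33.OD

open MvPolynomial Pool.Agent.H533R3.SL

variable {k : Type} [Field k] {n : ℕ}

attribute [local instance] MvPolynomial.gradedAlgebra

/-- `Z` is a finite set of forms that generate a prime ideal, and the closed subvariety `Z = 0` is
uniruled and contained in the zero set of `FF` -/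
def UniSub (FF : Set (MvPolynomial (Fin (n + 1)) k)) (Z : Finset (MvPolynomial (Fin (n + 1)) k)) :
    Prop :=
  (∀ F ∈ Z, ∃ e, F.IsHomogeneous e) ∧
    (Ideal.span (Z : Set (MvPolynomial (Fin (n + 1)) k))).IsPrime ∧
    Uniruled (Ideal.span (Z : Set (MvPolynomial (Fin (n + 1)) k))) ∧
    ∀ F ∈ FF, F ∈ Ideal.span (Z : Set (MvPolynomial (Fin (n + 1)) k))

theorem aeval_span {A : Type} [CommRing A] [Algebra k A] (x : Fin (n + 1) → A)
    {FF : Set (MvPolynomial (Fin (n + 1)) k)} (h : ∀ F ∈ FF, aeval x F = 0) :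
    ∀ F ∈ Ideal.span FF, aeval x F = 0 := by
  have h1 : Ideal.span FF ≤ RingHom.ker (aeval x : MvPolynomial (Fin (n + 1)) k →ₐ[k] A) := by
    rw [Ideal.span_le]
    intro F hF
    exact h F hF
  exact fun F hF => h1 hF

/-- a form which does not vanish at zero is a constant -/
theorem form_const {G : MvPolynomial (Fin (n + 1)) k} {e : ℕ} (hG : G.IsHomogeneous e)
    {A : Type} [CommRing A] [Algebra k A] (h : aeval (0 : Fin (n + 1) → A) G ≠ 0) :
    ∃ a : k, G = C a := by
  have h1 : aeval (0 : Fin (n + 1) → A) G = algebraMap k A (constantCoeff G) := by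
    rw [MvPolynomial.aeval_zero]
  have h2 : coeff 0 G ≠ 0 := by
    intro h0
    apply h
    rw [h1, MvPolynomial.constantCoeff_eq, h0, map_zero]
  have he : e = 0 := by
    by_contra hne
    apply h2
    apply hG.coeff_eq_zero
    simp
    omega
  subst he
  refine ⟨coeff 0 G, ?_⟩
  ext d
  rw [coeff_C]
  split_ifs with hd
  · rw [hd]
  · apply hG.coeff_eq_zero
    intro h0
    apply hd
    rw [Finsupp.degree_eq_zero_iff] at h0
    exact h0.symm

/-- a nonconstant curve with few exponents lies in `G = 0` -/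
theorem in_of_curCond [CharZero k] {FF : Set (MvPolynomial (Fin (n + 1)) k)}
    {G : MvPolynomial (Fin (n + 1)) k} {e : ℕ} (hGh : G.IsHomogeneous e) {R : ℕ}
    (hG : Pool.Agent.TH717.GO.CurCond FF G R)
    {L : Type} [Field L] [Algebra k L] (p : Fin (n + 1) → Polynomial L) (S : Finset ℕ)
    (hS : S.card ≤ R) (hp : ∀ i, (p i).support ⊆ S) (hF : ∀ F ∈ FF, aeval p F = 0)
    (hm : ∃ i i', p i * Polynomial.C ((p i').eval 1) ≠ p i' * Polynomial.C ((p i).eval 1)) :
    aeval p G = 0 := by
  have hcz : CharZero L := charZero_of_injective_algebraMap (FaithfulSMul.algebraMap_injective k L)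
  by_contra hne
  have hev : ∀ (F : MvPolynomial (Fin (n + 1)) k) (t : L), (aeval p F).eval t =
      aeval (fun i => (p i).eval t) F := by
    intro F t
    exact MvPolynomial.comp_aeval_apply (R := k) p
      ((Polynomial.aeval t : Polynomial L →ₐ[L] L).restrictScalars k) F
  obtain ⟨c, hc0, hc⟩ : ∃ c : L, c ≠ 0 ∧ (aeval p G).eval c ≠ 0 := by
    by_contra hcon
    push Not at hcon
    apply hne
    have h5 : Polynomial.X * aeval p G = 0 := by
      apply Polynomial.funext
      intro d
      rw [Polynomial.eval_mul, Polynomial.eval_X, Polynomial.eval_zero]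
      by_cases hd : d = 0
      · rw [hd, zero_mul]
      · rw [hcon d hd, mul_zero]
    exact (mul_eq_zero.1 h5).resolve_left Polynomial.X_ne_zero
  rw [hev] at hc
  -- the curve in another parameter
  let q : Fin (n + 1) → Polynomial L := fun i => (p i).comp (Polynomial.C c * Polynomial.X)
  have hq1 : ∀ i, (q i).eval 1 = (p i).eval c := by
    intro i
    simp [q, Polynomial.eval_comp]
  have hqs : ∀ i, (q i).support ⊆ S := by
    intro i m hm
    apply hp i
    rw [Polynomial.mem_support_iff] at hm ⊢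
    intro h0
    apply hm
    simp only [q]
    rw [Polynomial.comp_C_mul_X_coeff, h0, zero_mul]
  have hqF : ∀ F ∈ FF, aeval q F = 0 := by
    intro F hF'
    have h1 := hF F hF'
    have h2 : aeval q F = (aeval p F).comp (Polynomial.C c * Polynomial.X) := by
      have h3 := MvPolynomial.comp_aeval_apply (R := k) p
        ((Polynomial.aeval (Polynomial.C c * Polynomial.X) :
          Polynomial L →ₐ[L] Polynomial L).restrictScalars k) F
      exact h3.symm
    rw [h2, h1, Polynomial.zero_comp]
  have h1 := hG L q S hS hqs hqF (by simpa only [hq1] using hc)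
  simp only [hq1] at h1
  have h7 : ∀ (i i' : Fin (n + 1)) (t : L), (p i).eval t * (p i').eval c =
      (p i').eval t * (p i).eval c := by
    intro i i' t
    have h8 := congrArg (fun P => Polynomial.eval (t / c) P) (h1 i i')
    simp only [q, Polynomial.eval_mul, Polynomial.eval_C, Polynomial.eval_comp,
      Polynomial.eval_X, mul_div_cancel₀ _ hc0] at h8
    exact h8
  obtain ⟨a, b, hab⟩ := hm
  apply hab
  by_cases hz : ∀ l, (p l).eval c = 0
  · -- then `G` is constant
    have h2 : (fun i => (p i).eval c) = 0 := funext hz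
    rw [h2] at hc
    obtain ⟨x, hx⟩ := form_const hGh hc
    have h3 : aeval (fun i => (p i).eval 1) G ≠ 0 := by
      rw [hx] at hc ⊢
      rw [MvPolynomial.aeval_C] at hc ⊢
      exact hc
    exact hG L p S hS hp hF h3 a b
  · push Not at hz
    obtain ⟨l, hl⟩ := hz
    apply Polynomial.funext
    intro t
    simp only [Polynomial.eval_mul, Polynomial.eval_C]
    have a1 := h7 a l t
    have a2 := h7 b l t
    have a3 := h7 a l 1
    have a4 := h7 b l 1
    have h9 : ((p a).eval t * (p b).eval 1 - (p b).eval t * (p a).eval 1) *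
        ((p l).eval c) ^ 2 = 0 := by
      linear_combination ((p b).eval 1 * (p l).eval c) * a1 - ((p a).eval 1 * (p l).eval c) * a2 +
        ((p l).eval t * (p a).eval c) * a4 - ((p l).eval t * (p b).eval c) * a3
    have h10 := (mul_eq_zero.1 h9).resolve_right (pow_ne_zero 2 hl)
    linear_combination h10

theorem curve_list [CharZero k] (R : ℕ) (FF : Finset (MvPolynomial (Fin (n + 1)) k))
    (hhom : ∀ F ∈ FF, ∃ e, F.IsHomogeneous e) :
    ∃ T : Set (Finset (MvPolynomial (Fin (n + 1)) k)), T.Finite ∧ (∀ Z ∈ T, UniSub FF Z) ∧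
      ∀ (L : Type) [Field L] [Algebra k L] (p : Fin (n + 1) → Polynomial L) (S : Finset ℕ),
        S.card ≤ R → (∀ i, (p i).support ⊆ S) → (∀ F ∈ FF, aeval p F = 0) →
        (∃ i i', p i * Polynomial.C ((p i').eval 1) ≠ p i' * Polynomial.C ((p i).eval 1)) →
        ∃ Z ∈ T, ∀ F ∈ Z, aeval p F = 0 := by
  classical
  suffices H : ∀ I : Ideal (MvPolynomial (Fin (n + 1)) k),
      ∀ FF : Finset (MvPolynomial (Fin (n + 1)) k),
      Ideal.span (FF : Set (MvPolynomial (Fin (n + 1)) k)) = I →
      (∀ F ∈ FF, ∃ e, F.IsHomogeneous e) →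
      ∃ T : Set (Finset (MvPolynomial (Fin (n + 1)) k)), T.Finite ∧ (∀ Z ∈ T, UniSub FF Z) ∧
      ∀ (L : Type) [Field L] [Algebra k L] (p : Fin (n + 1) → Polynomial L) (S : Finset ℕ),
        S.card ≤ R → (∀ i, (p i).support ⊆ S) → (∀ F ∈ FF, aeval p F = 0) →
        (∃ i i', p i * Polynomial.C ((p i').eval 1) ≠ p i' * Polynomial.C ((p i).eval 1)) →
        ∃ Z ∈ T, ∀ F ∈ Z, aeval p F = 0 from H _ FF rfl hhom
  intro I
  induction I using WellFoundedGT.induction with
  | ind I ih =>
    intro FF hI hhom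
    have hins : ∀ G : MvPolynomial (Fin (n + 1)) k, (∃ e, G.IsHomogeneous e) → G ∉ I →
        ∃ T : Set (Finset (MvPolynomial (Fin (n + 1)) k)), T.Finite ∧ (∀ Z ∈ T, UniSub FF Z) ∧
          ∀ (L : Type) [Field L] [Algebra k L] (p : Fin (n + 1) → Polynomial L) (S : Finset ℕ),
          S.card ≤ R → (∀ i, (p i).support ⊆ S) → (∀ F ∈ FF, aeval p F = 0) → aeval p G = 0 →
          (∃ i i', p i * Polynomial.C ((p i').eval 1) ≠ p i' * Polynomial.C ((p i).eval 1)) →
          ∃ Z ∈ T, ∀ F ∈ Z, aeval p F = 0 := by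
      intro G hGh hGI
      have hsp : Ideal.span ((insert G FF : Finset (MvPolynomial (Fin (n + 1)) k)) :
          Set (MvPolynomial (Fin (n + 1)) k)) > I := by
        rw [gt_iff_lt, lt_iff_le_and_ne]
        constructor
        · rw [← hI]
          apply Ideal.span_mono
          rw [Finset.coe_insert]
          exact Set.subset_insert _ _
        · intro h
          apply hGI
          rw [h]
          apply Ideal.subset_span
          rw [Finset.coe_insert]
          exact Set.mem_insert _ _
      obtain ⟨T, hT1, hT2, hT3⟩ := ih _ hsp (insert G FF) rfl (by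
        intro F hF
        rcases Finset.mem_insert.1 hF with h | h
        · rw [h]; exact hGh
        · exact hhom F h)
      refine ⟨T, hT1, fun Z hZ => ?_, ?_⟩
      · obtain ⟨h1, h2, h3, h4⟩ := hT2 Z hZ
        refine ⟨h1, h2, h3, fun F hF => h4 F ?_⟩
        rw [Finset.mem_coe] at hF ⊢
        exact Finset.mem_insert_of_mem hF
      · intro L _ _ p S hS hp hF hG hm
        refine hT3 L p S hS hp ?_ hm
        intro F hF'
        rcases Finset.mem_insert.1 hF' with h | h
        · rw [h]; exact hG
        · exact hF F h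
    have hvan : ∀ (L : Type) [Field L] [Algebra k L] (p : Fin (n + 1) → Polynomial L),
        (∀ F ∈ FF, aeval p F = 0) → ∀ F ∈ I, aeval p F = 0 := by
      intro L _ _ p h
      rw [← hI]
      exact aeval_span p (by simpa using h)
    by_cases htop : I = ⊤
    · refine ⟨∅, Set.finite_empty, fun Z hZ => absurd hZ (Set.notMem_empty Z), ?_⟩
      intro L _ _ p S hS hp hF hm
      exfalso
      have h1 := hvan L p hF 1 (by rw [htop]; exact Submodule.mem_top)
      rw [map_one] at h1
      exact one_ne_zero h1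
    by_cases hprime : I.IsPrime
    · by_cases hu : Uniruled I
      · refine ⟨{FF}, Set.finite_singleton _, ?_, ?_⟩
        · intro Z hZ
          rw [Set.mem_singleton_iff] at hZ
          subst hZ
          exact ⟨hhom, by rw [hI]; exact hprime, by rw [hI]; exact hu,
            fun F hF => Ideal.subset_span hF⟩
        · intro L _ _ p S hS hp hF hm
          exact ⟨FF, Set.mem_singleton _, hF⟩
      · obtain ⟨G, hG1, hG2, hG3⟩ := Pool.Agent.TH717.GO.hyper_poly FF (by rw [hI]; exact hprime)
          (by rw [hI]; exact hu) hhom R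
        rw [hI] at hG2
        obtain ⟨T, hT1, hT2, hT3⟩ := hins G hG1 hG2
        refine ⟨T, hT1, hT2, ?_⟩
        intro L _ _ p S hS hp hF hm
        obtain ⟨e, he⟩ := hG1
        exact hT3 L p S hS hp hF (in_of_curCond (FF := (FF : Set (MvPolynomial (Fin (n + 1)) k)))
          he hG3 p S hS hp hF hm) hm
    · -- not prime
      have hIh : I.IsHomogeneous (homogeneousSubmodule (Fin (n + 1)) k) := by
        rw [← hI]
        apply Ideal.homogeneous_span
        intro F hF
        obtain ⟨e, he⟩ := hhom F hF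
        exact ⟨e, (mem_homogeneousSubmodule e F).2 he⟩
      obtain ⟨x, y, hx, hy, hxy, hxI, hyI⟩ : ∃ x y : MvPolynomial (Fin (n + 1)) k,
          (∃ e, x.IsHomogeneous e) ∧ (∃ e, y.IsHomogeneous e) ∧ x * y ∈ I ∧ x ∉ I ∧ y ∉ I := by
        by_contra hcon
        push Not at hcon
        apply hprime
        refine hIh.isPrime_of_homogeneous_mem_or_mem htop ?_
        rintro x y ⟨e, he⟩ ⟨e', he'⟩ hxy
        by_cases hxI : x ∈ I
        · exact Or.inl hxI
        · right
          by_contra hyI
          exact hyI (hcon x y ⟨e, (mem_homogeneousSubmodule e x).1 he⟩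
            ⟨e', (mem_homogeneousSubmodule e' y).1 he'⟩ hxy hxI)
      obtain ⟨T1, a1, a2, a3⟩ := hins x hx hxI
      obtain ⟨T2, b1, b2, b3⟩ := hins y hy hyI
      refine ⟨T1 ∪ T2, a1.union b1, ?_, ?_⟩
      · rintro Z (hZ | hZ)
        · exact a2 Z hZ
        · exact b2 Z hZ
      · intro L _ _ p S hS hp hF hm
        have h1 := hvan L p hF _ hxy
        rw [map_mul] at h1
        rcases mul_eq_zero.1 h1 with h | h
        · obtain ⟨Z, hZ, hZF⟩ := a3 L p S hS hp hF h hm
          exact ⟨Z, Or.inl hZ, hZF⟩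
        · obtain ⟨Z, hZ, hZF⟩ := b3 L p S hS hp hF h hm
          exact ⟨Z, Or.inr hZ, hZF⟩

/-- forms which vanish on all the subvarieties of the list -/
theorem curCond_of_list {R : ℕ} {FF : Finset (MvPolynomial (Fin (n + 1)) k)}
    {T : Set (Finset (MvPolynomial (Fin (n + 1)) k))}
    (h : ∀ (L : Type) [Field L] [Algebra k L] (p : Fin (n + 1) → Polynomial L) (S : Finset ℕ),
        S.card ≤ R → (∀ i, (p i).support ⊆ S) → (∀ F ∈ FF, aeval p F = 0) →
        (∃ i i', p i * Polynomial.C ((p i').eval 1) ≠ p i' * Polynomial.C ((p i).eval 1)) →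
        ∃ Z ∈ T, ∀ F ∈ Z, aeval p F = 0) {G : MvPolynomial (Fin (n + 1)) k}
    (hG : ∀ Z ∈ T, G ∈ Ideal.span (Z : Set (MvPolynomial (Fin (n + 1)) k))) :
    Pool.Agent.TH717.GO.CurCond (FF : Set (MvPolynomial (Fin (n + 1)) k)) G R := by
  intro L _ _ p S hS hp hF hG1 i i'
  by_contra hne
  obtain ⟨Z, hZ, hZF⟩ := h L p S hS hp hF ⟨i, i', hne⟩
  apply hG1
  have h1 : aeval p G = 0 := aeval_span p (by simpa using hZF) G (hG Z hZ)
  have hev : (aeval p G).eval 1 = aeval (fun i => (p i).eval 1) G :=
    MvPolynomial.comp_aeval_apply (R := k) p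
      ((Polynomial.aeval 1 : Polynomial L →ₐ[L] L).restrictScalars k) G
  rw [← hev, h1, Polynomial.eval_zero]

end Pool.Agent.Q33.OD
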