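import Pool.Agent.Q33.OD.Main
import Pool.Agent.Q33.OD.UList
import Pool.Agent.TH717.GO.UE

/-!
One finite list of uniruled closed subvarieties for curves given by linear differential equations
and for orbits of linear groups.
-/

set_option autoImplicit false

namespace Pool.Agent.Q33.OD

open MvPolynomial Metric Set Filter Topology Pool.Agent.TH143 Pool.Agent.TH143.GT
open Pool.Agent.H533R3.SL Pool.Agent.TH717.GO

variable {k : Type} [Field k] {n : ℕ}

/-- one form of an ideal that does not vanish at given points -/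
theorem exists_form_off [CharZero k] {K : Type} [Field K] [Algebra k K]
    (J : Ideal (MvPolynomial (Fin (n + 1)) k)) (W : Finset (Fin (n + 1) → K))
    (h : ∀ w ∈ W, ∃ G ∈ J, (∃ e, G.IsHomogeneous e) ∧ aeval w G ≠ 0) (hJ : W.Nonempty) :
    ∃ G ∈ J, (∃ e, G.IsHomogeneous e) ∧ ∀ w ∈ W, aeval w G ≠ 0 := by
  classical
  induction W using Finset.induction_on with
  | empty => exact absurd hJ (by simp)
  | insert w W hw ih =>
    obtain ⟨P, hPJ, ⟨e, he⟩, hPw⟩ := h w (Finset.mem_insert_self w W)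
    by_cases hW : W.Nonempty
    · obtain ⟨G, hGJ, ⟨d, hd⟩, hG⟩ := ih (fun w' hw' => h w' (Finset.mem_insert_of_mem hw')) hW
      by_cases hGw : aeval w G ≠ 0
      · refine ⟨G, hGJ, ⟨d, hd⟩, fun w' hw' => ?_⟩
        rcases Finset.mem_insert.1 hw' with h1 | h1
        · rw [h1]; exact hGw
        · exact hG w' h1
      push Not at hGw
      by_cases he0 : e = 0
      · subst he0
        have h0 : ∃ a : k, P = C a := by
          refine ⟨coeff 0 P, ?_⟩
          ext m
          rw [coeff_C]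
          split_ifs with hm
          · rw [hm]
          · apply he.coeff_eq_zero
            intro h0
            apply hm
            rw [Finsupp.degree_eq_zero_iff] at h0
            exact h0.symm
        obtain ⟨a, ha⟩ := h0
        refine ⟨P, hPJ, ⟨0, he⟩, fun w' _ => ?_⟩
        rw [ha] at hPw ⊢
        rw [aeval_C] at hPw ⊢
        exact hPw
      by_cases hd0 : d = 0
      · exfalso
        obtain ⟨w', hw'⟩ := hW
        subst hd0
        have h0 : ∃ a : k, G = C a := by
          refine ⟨coeff 0 G, ?_⟩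
          ext m
          rw [coeff_C]
          split_ifs with hm
          · rw [hm]
          · apply hd.coeff_eq_zero
            intro h0
            apply hm
            rw [Finsupp.degree_eq_zero_iff] at h0
            exact h0.symm
        obtain ⟨a, ha⟩ := h0
        have h1 := hG w' hw'
        rw [ha, aeval_C] at h1 hGw
        exact h1 hGw
      -- a combination
      obtain ⟨c, hc0, hc⟩ : ∃ c : k, c ≠ 0 ∧ ∀ w' ∈ W,
          aeval w' (G ^ e + MvPolynomial.C c * P ^ d) ≠ 0 := by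
        let Q : Polynomial K := ∏ w' ∈ W, (Polynomial.C ((aeval w' G) ^ e) +
          Polynomial.X * Polynomial.C ((aeval w' P) ^ d))
        have hQ : Polynomial.X * Q ≠ 0 := by
          refine mul_ne_zero Polynomial.X_ne_zero (Finset.prod_ne_zero_iff.2 fun w' hw' h0 => ?_)
          have h1 := congrArg (fun R => Polynomial.eval 0 R) h0
          simp only [Polynomial.eval_add, Polynomial.eval_C, Polynomial.eval_mul,
            Polynomial.eval_X, zero_mul, add_zero, Polynomial.eval_zero] at h1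
          exact pow_ne_zero _ (hG w' hw') h1
        have hinf : (Set.range (algebraMap k K)).Infinite :=
          Set.infinite_range_of_injective (FaithfulSMul.algebraMap_injective k K)
        obtain ⟨x, ⟨c, rfl⟩, hx⟩ := (hinf.sdiff (Polynomial.X * Q).roots.toFinset.finite_toSet).nonempty
        have hx' : (Polynomial.X * Q).eval (algebraMap k K c) ≠ 0 := by
          intro h0
          apply hx
          rw [Finset.mem_coe, Multiset.mem_toFinset, Polynomial.mem_roots hQ]
          exact h0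
        rw [Polynomial.eval_mul, Polynomial.eval_X] at hx'
        refine ⟨c, ?_, ?_⟩
        · rintro rfl
          apply hx'
          rw [map_zero, zero_mul]
        · intro w' hw' h0
          apply hx'
          simp only [Q, Polynomial.eval_prod]
          rw [Finset.prod_eq_zero hw', mul_zero]
          simp only [Polynomial.eval_add, Polynomial.eval_C, Polynomial.eval_mul,
            Polynomial.eval_X]
          rw [map_add, map_mul, map_pow, map_pow, aeval_C] at h0
          exact h0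
      refine ⟨G ^ e + MvPolynomial.C c * P ^ d, ?_, ⟨d * e, ?_⟩, ?_⟩
      · exact J.add_mem (J.pow_mem_of_mem hGJ e (Nat.pos_of_ne_zero he0))
          (J.mul_mem_left _ (J.pow_mem_of_mem hPJ d (Nat.pos_of_ne_zero hd0)))
      · refine IsHomogeneous.add (hd.pow e) ?_
        have h1 := (isHomogeneous_C (Fin (n + 1)) c).mul (he.pow d)
        rwa [zero_add, mul_comm e d] at h1
      · intro w' hw'
        rcases Finset.mem_insert.1 hw' with h1 | h1
        · rw [h1, map_add, map_mul, map_pow, map_pow, aeval_C, hGw, zero_pow he0, zero_add]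
          exact mul_ne_zero (by
            rw [Ne, map_eq_zero]
            exact hc0) (pow_ne_zero _ hPw)
        · exact hc w' h1
    · rw [Finset.not_nonempty_iff_eq_empty] at hW
      subst hW
      refine ⟨P, hPJ, ⟨e, he⟩, fun w' hw' => ?_⟩
      rw [Finset.mem_insert] at hw'
      rcases hw' with h1 | h1
      · rw [h1]; exact hPw
      · exact absurd h1 (by simp)

/-- the ideal of the union of a list of subvarieties -/
noncomputable def JJ (T : Set (Finset (MvPolynomial (Fin (n + 1)) k))) : Ideal (MvPolynomial (Fin (n + 1)) k) :=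
  ⨅ Z ∈ T, Ideal.span (Z : Set (MvPolynomial (Fin (n + 1)) k))

theorem mem_JJ {T : Set (Finset (MvPolynomial (Fin (n + 1)) k))}
    {G : MvPolynomial (Fin (n + 1)) k} :
    G ∈ JJ T ↔ ∀ Z ∈ T, G ∈ Ideal.span (Z : Set (MvPolynomial (Fin (n + 1)) k)) := by
  simp [JJ]

/-- a product of forms, one for each subvariety -/
theorem prod_mem_JJ {T : Set (Finset (MvPolynomial (Fin (n + 1)) k))} (hT : T.Finite)
    (g : Finset (MvPolynomial (Fin (n + 1)) k) → MvPolynomial (Fin (n + 1)) k)
    (hg : ∀ Z ∈ T, g Z ∈ Z) : ∏ Z ∈ hT.toFinset, g Z ∈ JJ T := by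
  rw [mem_JJ]
  intro Z hZ
  classical
  rw [← Finset.mul_prod_erase _ _ (hT.mem_toFinset.2 hZ)]
  exact Ideal.mul_mem_right _ _ (Ideal.subset_span (hg Z hZ))

theorem prod_form {T : Set (Finset (MvPolynomial (Fin (n + 1)) k))} (hT : T.Finite)
    (g : Finset (MvPolynomial (Fin (n + 1)) k) → MvPolynomial (Fin (n + 1)) k)
    (hg : ∀ Z ∈ T, ∃ e, (g Z).IsHomogeneous e) :
    ∃ e, (∏ Z ∈ hT.toFinset, g Z).IsHomogeneous e := by
  choose! e he using hg
  exact ⟨_, IsHomogeneous.prod _ _ _ fun Z hZ => he Z (hT.mem_toFinset.1 hZ)⟩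

theorem curCond_mono {FF : Set (MvPolynomial (Fin (n + 1)) k)} {G : MvPolynomial (Fin (n + 1)) k}
    {R R' : ℕ} (h : R' ≤ R) (hG : CurCond FF G R) : CurCond FF G R' :=
  fun L _ _ p S hS => hG L p S (hS.trans h)

/-- the points of an orbit outside a list of subvarieties -/
def orbitOut {K : Type} [Field K] [Algebra k K] {r : ℕ} {H : Type} [Group H]
    (T : Set (Finset (MvPolynomial (Fin (n + 1)) k)))
    (M : Matrix (Fin (n + 1)) (Fin r) K) (ρ : H →* Matrix.GeneralLinearGroup (Fin r) K)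
    (v : Fin r → K) : Set (Projectivization K (Fin (n + 1) → K)) :=
  {P | ∃ (h : H) (h0 : orb M ρ v h ≠ 0), (∀ Z ∈ T, ∃ F ∈ Z, aeval (orb M ρ v h) F ≠ 0) ∧
    P = Projectivization.mk K (orb M ρ v h) h0}

theorem orbit_out [CharZero k] {FF : Finset (MvPolynomial (Fin (n + 1)) k)}
    (hhom : ∀ F ∈ FF, ∃ e, F.IsHomogeneous e) {R r : ℕ} (hrR : r * r ≤ R)
    {T : Set (Finset (MvPolynomial (Fin (n + 1)) k))} (hT : T.Finite)
    (hTh : ∀ Z ∈ T, ∀ F ∈ Z, ∃ e, F.IsHomogeneous e)
    (hlist : ∀ (L : Type) [Field L] [Algebra k L] (p : Fin (n + 1) → Polynomial L) (S : Finset ℕ),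
        S.card ≤ R → (∀ i, (p i).support ⊆ S) → (∀ F ∈ FF, aeval p F = 0) →
        (∃ i i', p i * Polynomial.C ((p i').eval 1) ≠ p i' * Polynomial.C ((p i).eval 1)) →
        ∃ Z ∈ T, ∀ F ∈ Z, aeval p F = 0)
    {K : Type} [Field K] [NumberField K] [Algebra k K] {D : ℕ} (hD : Module.finrank ℚ K ≤ D)
    {H : Type} [Group H]
    (ρ : H →* Matrix.GeneralLinearGroup (Fin r) K) (M : Matrix (Fin (n + 1)) (Fin r) K)
    (v : Fin r → K) (hX : ∀ h, ∀ F ∈ FF, aeval (orb M ρ v h) F = 0) :
    (orbitOut T M ρ v).encard ≤ bd r D := by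
  classical
  by_contra hcon
  push Not at hcon
  obtain ⟨E, hE, hEc⟩ := Set.exists_subset_encard_eq (s := orbitOut T M ρ v)
    (k := ((bd r D + 1 : ℕ) : ℕ∞)) (by
      have := Order.add_one_le_of_lt hcon
      exact_mod_cast this)
  have hEfin : E.Finite := Set.finite_of_encard_eq_coe hEc
  choose! sel h0 hsel hP using fun P (hP : P ∈ E) => hE hP
  let W : Finset (Fin (n + 1) → K) := hEfin.toFinset.image fun P => orb M ρ v (sel P)
  have hEne : E.Nonempty := by
    rw [← Set.encard_ne_zero, hEc]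
    exact_mod_cast Nat.succ_ne_zero (bd r D)
  obtain ⟨G, hGJ, hGh, hG⟩ := exists_form_off (JJ T) W (by
    intro w hw
    obtain ⟨P, hP, rfl⟩ := Finset.mem_image.1 hw
    rw [hEfin.mem_toFinset] at hP
    choose! g hgZ hg using hsel P hP
    refine ⟨∏ Z ∈ hT.toFinset, g Z, prod_mem_JJ hT g hgZ, prod_form hT g fun Z hZ =>
      hTh Z hZ _ (hgZ Z hZ), ?_⟩
    rw [map_prod]
    exact Finset.prod_ne_zero_iff.2 fun Z hZ => hg Z (hT.mem_toFinset.1 hZ)) (by
    obtain ⟨P, hP⟩ := hEne
    exact ⟨_, Finset.mem_image_of_mem _ (hEfin.mem_toFinset.2 hP)⟩)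
  have hCC : CurCond (FF : Set (MvPolynomial (Fin (n + 1)) k)) G (r * r) :=
    curCond_mono hrR (curCond_of_list hlist (mem_JJ.1 hGJ))
  have hb := uni_core (FF : Set (MvPolynomial (Fin (n + 1)) k)) hhom G hGh hCC
    (specDeg_of_numberField K D hD) ρ M v hX
  have hsub : E ⊆ orbitOff G M ρ v := by
    intro P hPE
    exact ⟨sel P, h0 P hPE, hG _ (Finset.mem_image_of_mem _ (hEfin.mem_toFinset.2 hPE)), hP P hPE⟩
  have h3 := (Set.encard_le_encard hsub).trans hb
  rw [hEc] at h3
  have h4 : bd r D + 1 ≤ bd r D := by exact_mod_cast h3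
  omega

theorem ode_list [CharZero k] [Algebra k ℂ] {FF : Finset (MvPolynomial (Fin (n + 1)) k)}
    (hhom : ∀ F ∈ FF, ∃ e, F.IsHomogeneous e) (r : ℕ)
    {T : Set (Finset (MvPolynomial (Fin (n + 1)) k))} (hT : T.Finite)
    (hlist : ∀ (L : Type) [Field L] [Algebra k L] (p : Fin (n + 1) → Polynomial L) (S : Finset ℕ),
        S.card ≤ r * r →
        (∀ i, (p i).support ⊆ S) → (∀ F ∈ FF, aeval p F = 0) →
        (∃ i i', p i * Polynomial.C ((p i').eval 1) ≠ p i' * Polynomial.C ((p i).eval 1)) →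
        ∃ Z ∈ T, ∀ F ∈ Z, aeval p F = 0)
    {Ω : Set ℂ} {B : Subalgebra ℂ (ℂ → ℂ)} (hΩ : IsOpen Ω) (hΩc : IsPreconnected Ω)
    (hB : DiffRing Ω B) {f : ℂ → Fin (n + 1) → ℂ} (hf : ∀ j, AnalyticOnNhd ℂ (fun w => f w j) Ω)
    (hlin : LinSys r Ω B f) (hF : ∀ F ∈ FF, ∀ z ∈ Ω, aeval (f z) F = 0)
    (hna : ∃ i j, (∃ z ∈ Ω, f z j ≠ 0) ∧ ¬ AlgOver Ω B (fun w => f w i) (fun w => f w j)) :
    ∃ Z ∈ T, ∀ F ∈ Z, ∀ z ∈ Ω, aeval (f z) F = 0 := by
  classical
  by_contra hcon
  push Not at hcon
  choose! g hgZ hg using hcon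
  obtain ⟨i, j, hj, hna⟩ := hna
  apply hna
  have hCC := curCond_of_list hlist (mem_JJ.1 (prod_mem_JJ hT g hgZ))
  refine ode_core (FF : Set (MvPolynomial (Fin (n + 1)) k)) hhom _ r hCC hΩ hΩc hB hf hlin hF ?_
    i j hj
  -- the product does not vanish
  have hae : ∀ (x : Fin (n + 1) → ℂ) (P : MvPolynomial (Fin (n + 1)) k),
      aeval x P = eval x (MvPolynomial.map (algebraMap k ℂ) P) := by
    intro x P
    rw [MvPolynomial.eval_map]
    rfl
  have han : ∀ P : MvPolynomial (Fin (n + 1)) k, AnalyticOnNhd ℂ (fun z => aeval (f z) P) Ω := by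
    intro P
    have : (fun z => aeval (f z) P) = fun z => eval (f z) (MvPolynomial.map (algebraMap k ℂ) P) :=
      funext fun z => hae _ _
    rw [this]
    exact eval_an' hf _
  have key : ∀ S : Finset (Finset (MvPolynomial (Fin (n + 1)) k)), (∀ Z ∈ S, Z ∈ T) →
      ∃ z ∈ Ω, aeval (f z) (∏ Z ∈ S, g Z) ≠ 0 := by
    intro S
    induction S using Finset.induction_on with
    | empty =>
      intro _
      obtain ⟨z, hz, -⟩ := hj
      exact ⟨z, hz, by simp⟩
    | insert Z S hZ ih =>
      intro hS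
      by_contra hcon
      push Not at hcon
      obtain ⟨z2, hz2, h2⟩ := ih fun Z' hZ' => hS Z' (Finset.mem_insert_of_mem hZ')
      obtain ⟨z1, hz1, h1⟩ := hg Z (hS Z (Finset.mem_insert_self Z S))
      have hm : ∀ z ∈ Ω, aeval (f z) (g Z) * aeval (f z) (∏ Z ∈ S, g Z) = 0 := by
        intro z hz
        rw [← map_mul, ← Finset.prod_insert hZ]
        exact hcon z hz
      rcases AnalyticOnNhd.eq_zero_or_eq_zero_of_mul_eq_zero (han _) (han _) hm hΩc with h | h
      · exact h1 (h z1 hz1)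
      · exact h2 (h z2 hz2)
  exact key _ fun Z hZ => hT.mem_toFinset.1 hZ

end Pool.Agent.Q33.OD
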