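import Mathlib

/-!
One-parameter groups of matrices: the number of the exponents and the degrees of the polynomials.
-/

set_option autoImplicit false

namespace Pool.Agent.Q33.OD

open Module

/-- solutions of linear systems with constant coefficients, with the eigenvalues as exponents -/
theorem exp_sol {V : Type} [AddCommGroup V] [Module ℂ V] [FiniteDimensional ℂ V] {n : ℕ}
    (hn : finrank ℂ V ≤ n) (T : Module.End ℂ V) (Λ : Finset ℂ) (hΛ : ∀ μ, T.HasEigenvalue μ → μ ∈ Λ)
    (v : V) : ∃ x : ℂ → ℕ → V, (∑ μ ∈ Λ, ∑ a ∈ Finset.range n, ((0 : ℂ) ^ a) • x μ a = v) ∧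
      ∀ t : ℂ, ∑ μ ∈ Λ, ∑ a ∈ Finset.range n,
        (μ * (Complex.exp (μ * t) * t ^ a) + Complex.exp (μ * t) * ((a : ℂ) * t ^ (a - 1))) • x μ a =
        T (∑ μ ∈ Λ, ∑ a ∈ Finset.range n, (Complex.exp (μ * t) * t ^ a) • x μ a) := by
  classical
  have hv : v ∈ ⨆ (μ : ℂ), T.maxGenEigenspace μ := by
    rw [Module.End.iSup_maxGenEigenspace_eq_top]
    exact Submodule.mem_top
  refine Submodule.iSup_induction (fun μ => T.maxGenEigenspace μ)
    (motive := fun v => ∃ x : ℂ → ℕ → V,
      (∑ μ ∈ Λ, ∑ a ∈ Finset.range n, ((0 : ℂ) ^ a) • x μ a = v) ∧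
      ∀ t : ℂ, ∑ μ ∈ Λ, ∑ a ∈ Finset.range n,
        (μ * (Complex.exp (μ * t) * t ^ a) + Complex.exp (μ * t) * ((a : ℂ) * t ^ (a - 1))) • x μ a =
        T (∑ μ ∈ Λ, ∑ a ∈ Finset.range n, (Complex.exp (μ * t) * t ^ a) • x μ a)) hv ?_ ?_ ?_
  · intro μ v hv
    by_cases hv0 : v = 0
    · exact ⟨fun _ _ => 0, by simp [hv0], fun t => by simp⟩
    have hμ : μ ∈ Λ := by
      apply hΛ
      by_contra hcon
      apply hv0
      rw [Module.End.mem_maxGenEigenspace] at hv
      obtain ⟨k, hk⟩ := hv
      have h1 : ∀ k : ℕ, ((T - μ • (1 : Module.End ℂ V)) ^ k) v = 0 → v = 0 := by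
        intro k
        induction k with
        | zero => intro h; simpa using h
        | succ k ih =>
          intro h
          apply ih
          rw [pow_succ', Module.End.mul_apply] at h
          by_contra hne
          apply hcon
          apply Module.End.hasEigenvalue_of_hasEigenvector (x := ((T - μ • (1 : Module.End ℂ V)) ^ k) v)
          rw [Module.End.hasEigenvector_iff]
          refine ⟨?_, hne⟩
          rw [Module.End.mem_eigenspace_iff]
          simpa [sub_eq_zero] using h
      exact h1 k hk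
    have hk : ((T - μ • (1 : Module.End ℂ V)) ^ n) v = 0 := by
      have h1 : v ∈ T.maxGenEigenspace μ := hv
      rw [Module.End.maxGenEigenspace_eq_genEigenspace_finrank, Module.End.mem_genEigenspace_nat] at h1
      rw [← Nat.sub_add_cancel hn, pow_add, Module.End.mul_apply]
      rw [LinearMap.mem_ker] at h1
      rw [h1, map_zero]
    set N : Module.End ℂ V := T - μ • (1 : Module.End ℂ V) with hN
    have hT : ∀ w, T w = μ • w + N w := by
      intro w
      rw [hN]
      simp
    refine ⟨fun ν a => if ν = μ then (((a.factorial : ℕ) : ℂ)⁻¹) • (N ^ a) v else 0, ?_, fun t => ?_⟩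
    · rw [Finset.sum_eq_single μ (fun ν _ hν => by simp [hν]) (fun h => absurd hμ h)]
      cases n with
      | zero =>
        simp only [pow_zero, Module.End.one_apply] at hk
        exact absurd hk hv0
      | succ n =>
        rw [Finset.sum_range_succ']
        simp
    · rw [Finset.sum_eq_single μ (fun ν _ hν => by simp [hν]) (fun h => absurd hμ h),
        Finset.sum_eq_single μ (fun ν _ hν => by simp [hν]) (fun h => absurd hμ h)]
      simp only [if_true]
      rw [map_sum]
      simp only [map_smul]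
      have h1 : ∀ a : ℕ, T ((N ^ a) v) = μ • (N ^ a) v + (N ^ (a + 1)) v := by
        intro a
        rw [hT, pow_succ', Module.End.mul_apply]
      simp only [h1, smul_add, add_smul, Finset.sum_add_distrib]
      congr 1
      · refine Finset.sum_congr rfl fun a _ => ?_
        rw [smul_smul, smul_smul, smul_smul]
        congr 1
        ring
      · cases n with
        | zero => simp
        | succ n =>
          rw [Finset.sum_range_succ', Finset.sum_range_succ]
          rw [hk, smul_zero, smul_zero, add_zero]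
          simp only [Nat.cast_zero, zero_mul, mul_zero, zero_smul, add_zero]
          refine Finset.sum_congr rfl fun a _ => ?_
          rw [smul_smul, smul_smul, Nat.add_sub_cancel, Nat.factorial_succ]
          congr 1
          have h3 : ((a : ℕ) : ℂ) + 1 ≠ 0 := Nat.cast_add_one_ne_zero _
          have h4 : ((a.factorial : ℕ) : ℂ) ≠ 0 := Nat.cast_ne_zero.2 a.factorial_ne_zero
          push_cast
          field_simp
  · exact ⟨fun _ _ => 0, by simp, fun t => by simp⟩
  · rintro v w ⟨x, h1, h2⟩ ⟨y, k1, k2⟩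
    refine ⟨fun μ a => x μ a + y μ a, ?_, fun t => ?_⟩
    · simp only [smul_add, Finset.sum_add_distrib]
      rw [h1, k1]
    · simp only [smul_add, Finset.sum_add_distrib, map_add]
      rw [h2, k2]

/-- The one-parameter group of an `n`-rowed matrix: `n` exponents at most, and polynomials of degree
less than `n`. -/
theorem exp_flow {n : ℕ} (β : Matrix (Fin n) (Fin n) ℂ) :
    ∃ (Λ : Finset ℂ) (x : ℂ → ℕ → Matrix (Fin n) (Fin n) ℂ) (e : ℂ → Matrix (Fin n) (Fin n) ℂ),
      Λ.card ≤ n ∧ (∀ t i j, e t i j =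
        ∑ μ ∈ Λ, ∑ a ∈ Finset.range n, Complex.exp (μ * t) * t ^ a * x μ a i j) ∧ e 0 = 1 ∧
      ∀ t i j, HasDerivAt (fun s => e s i j) ((e t * β) i j) t := by
  classical
  set T : Module.End ℂ (Fin n → ℂ) := Matrix.toLin' β.transpose with hT
  let Λ : Finset ℂ := T.charpoly.roots.toFinset
  have hΛ : ∀ μ, T.HasEigenvalue μ → μ ∈ Λ := by
    intro μ hμ
    rw [Multiset.mem_toFinset, Polynomial.mem_roots (LinearMap.charpoly_monic T).ne_zero]
    exact (Module.End.hasEigenvalue_iff_isRoot_charpoly T μ).1 hμ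
  have hcard : Λ.card ≤ n := by
    refine (Multiset.toFinset_card_le _).trans ((Polynomial.card_roots' _).trans ?_)
    rw [LinearMap.charpoly_natDegree]
    simp
  have hfr : finrank ℂ (Fin n → ℂ) ≤ n := by simp
  choose x h0 hx using fun i : Fin n => exp_sol hfr T Λ hΛ (Pi.single i (1 : ℂ))
  refine ⟨Λ, fun μ a => Matrix.of fun i j => x i μ a j,
    fun t => Matrix.of fun i j => (∑ μ ∈ Λ, ∑ a ∈ Finset.range n,
      (Complex.exp (μ * t) * t ^ a) • x i μ a) j, hcard, ?_, ?_, ?_⟩
  · intro t i j
    simp only [Matrix.of_apply, Finset.sum_apply, Pi.smul_apply, smul_eq_mul]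
  · ext i j
    simp only [Matrix.of_apply, mul_zero, Complex.exp_zero, one_mul]
    rw [h0 i, Matrix.one_apply, Pi.single_apply]
    simp only [eq_comm]
  · intro t i j
    simp only [Matrix.of_apply]
    have h3 : (fun s => (∑ μ ∈ Λ, ∑ a ∈ Finset.range n, (Complex.exp (μ * s) * s ^ a) • x i μ a) j) =
        fun s => ∑ μ ∈ Λ, ∑ a ∈ Finset.range n, Complex.exp (μ * s) * s ^ a * x i μ a j := by
      funext s
      simp only [Finset.sum_apply, Pi.smul_apply, smul_eq_mul]
    have h2 : HasDerivAt (fun s => (∑ μ ∈ Λ, ∑ a ∈ Finset.range n,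
        (Complex.exp (μ * s) * s ^ a) • x i μ a) j) ((∑ μ ∈ Λ, ∑ a ∈ Finset.range n,
        (μ * (Complex.exp (μ * t) * t ^ a) + Complex.exp (μ * t) * ((a : ℂ) * t ^ (a - 1))) •
          x i μ a) j) t := by
      rw [h3]
      simp only [Finset.sum_apply, Pi.smul_apply, smul_eq_mul]
      apply HasDerivAt.fun_sum
      intro μ _
      apply HasDerivAt.fun_sum
      intro a _
      have h4 : HasDerivAt (fun t : ℂ => Complex.exp (μ * t)) (Complex.exp (μ * t) * μ) t := by
        have := ((hasDerivAt_id t).const_mul μ).cexp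
        simpa using this
      have h5 := (h4.mul (hasDerivAt_pow a t)).mul_const (x i μ a j)
      refine h5.congr_deriv ?_
      ring
    refine h2.congr_deriv ?_
    rw [hx i t, hT, Matrix.toLin'_apply, Matrix.mulVec, Matrix.mul_apply]
    simp only [dotProduct, Matrix.transpose_apply, Matrix.of_apply]
    refine Finset.sum_congr rfl fun k _ => ?_
    ring

end Pool.Agent.Q33.OD
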