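import Pool.Agent.Q33.OD.ExpW
import Pool.Agent.Q33.OD.Ode

/-!
The flow through the points of a curve given by linear differential equations, with a boundary.
-/

set_option autoImplicit false

namespace Pool.Agent.Q33.OD

open MvPolynomial Metric Set Filter Topology Pool.Agent.TH143 Pool.Agent.TH143.GT

variable {S : Set ℂ}

theorem flow_localW (hS : IsOpen S) (hSc : IsPreconnected S) (hne : S.Nonempty)
    {ι : Type} (b : ι → ℂ → ℂ) (hb : ∀ i, AnalyticOnNhd ℂ (b i) S) (d : ι → ι)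
    (hd : ∀ i, ∀ z ∈ S, HasDerivAt (b i) (b (d i) z) z)
    {n : ℕ} (A : Fin n → Fin n → ι) (U : ℂ → Matrix (Fin n) (Fin n) ℂ)
    (hU : ∀ z ∈ S, ∀ i j, HasDerivAt (fun w => U w i j) (∑ k, b (A i k) z * U z k j) z)
    (hdet : ∀ z ∈ S, (U z).det ≠ 0)
    (B : Subalgebra ℂ (Hol S)) (hB : ∀ i, toHol (b i) (hb i) ∈ B)
    {N : ℕ} (L : Fin (N + 1) → Fin n → ι) (c : Fin n → ℂ) (f : ℂ → Fin (N + 1) → ℂ)
    (hf : ∀ z ∈ S, ∀ j, f z j = ∑ k, ∑ l, b (L j k) z * c l * U z k l) (j0 j1 : Fin (N + 1))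
    (hg0 : ∃ z ∈ S, f z j0 ≠ 0)
    (hNA : ∀ (m : ℕ) (c : ℕ → B), (∀ z : S, ∑ k ∈ Finset.range (m + 1),
      evz z (c k : Hol S) * (f z j1) ^ k * (f z j0) ^ (m - k) = 0) → ∀ k ≤ m, c k = 0)
    (Q : MvPolynomial (Fin (N + 1)) ℂ) (iq : ι) (hQ : ∀ z ∈ S, eval (f z) Q ≠ 0)
    (hQ' : ∀ z ∈ S, HasDerivAt (fun w => eval (f w) Q) (b iq z * eval (f z) Q) z) :
    ∃ (h : ℂ → ℂ → Fin (N + 1) → ℂ) (Λ : Finset ℂ) (mu : ℂ → ℕ)
      (q : ℂ → ℂ → ℕ → Fin (N + 1) → ℂ) (w : ℂ → ℂ) (γ : ℂ),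
      ∑ μ ∈ Λ, mu μ ≤ n ∧ (∀ z t j, h z t j =
        ∑ μ ∈ Λ, ∑ a ∈ Finset.range (mu μ), Complex.exp (μ * t) * t ^ a * q z μ a j) ∧
      (∀ z ∈ S, ∀ t, eval (h z t) Q = eval (f z) Q * Complex.exp (γ * t)) ∧
      (∀ z ∈ S, h z 0 = f z) ∧
      (∀ R : MvPolynomial (Fin (N + 1)) ℂ, (∀ z ∈ S, eval (f z) R = 0) →
        ∀ z ∈ S, ∀ t, eval (h z t) R = 0) ∧
      AnalyticOnNhd ℂ w S ∧ (∃ z ∈ S, w z ≠ 0) ∧
      ∀ z ∈ S, (∀ t, h z t j1 * f z j0 = h z t j0 * f z j1) → w z = 0 := by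
  classical
  set v := vv b U with hv
  let Φ : Fin (N + 1) → MvPolynomial (ι ⊕ (Fin n × Fin n)) ℂ := fun j =>
    ∑ k, ∑ l, X (Sum.inl (L j k)) * MvPolynomial.C (c l) * X (Sum.inr (k, l))
  have hΦ : ∀ z ∈ S, ∀ j, eval (v z) (Φ j) = f z j := by
    intro z hz j
    rw [hf z hz j]
    simp only [Φ, map_sum, map_mul, eval_C, eval_X, v, vv, Sum.elim_inr, Sum.elim_inl]
  have hFS : ∀ z ∈ S, (fun j => eval (v z) (Φ j)) = f z := fun z hz => funext (hΦ z hz)
  -- the system
  have hsol : Sol (EE d A) v S := by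
    intro z hz l
    rcases l with i | ⟨i, j⟩
    · have := hd i z hz
      simpa [EE, v, vv] using this
    · have := hU z hz i j
      simpa [EE, v, vv] using this
  have hvan : ∀ l, AnalyticOnNhd ℂ (fun z => v z l) S := by
    intro l
    have := hsol.analytic hS (X l)
    simpa using this
  let V : ι ⊕ (Fin n × Fin n) → Hol S := fun l => toHol (fun z => v z l) (hvan l)
  have hVe : ∀ (z : S), (fun l => evz z (V l)) = v z := fun z => rfl
  have hVP : ∀ (z : S) (P : MvPolynomial (ι ⊕ (Fin n × Fin n)) ℂ),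
      evz z (aeval V P) = eval (v z) P := by
    intro z P
    have h4 := MvPolynomial.comp_aeval_apply (f := V) (evz z) P
    rw [h4, ← MvPolynomial.aeval_eq_eval]
    rfl
  have hrel : ∀ P, Rel v S P ↔ aeval V P = 0 := by
    intro P
    constructor
    · intro h
      exact hol_ext fun z => by rw [hVP, map_zero]; exact h z z.2
    · intro h z hz
      rw [← hVP ⟨z, hz⟩, h, map_zero]
  have hqe : ∀ (R : MvPolynomial (Fin (N + 1)) ℂ) (x : ι ⊕ (Fin n × Fin n) → ℂ),
      eval x (bind₁ Φ R) = eval (fun j => eval x (Φ j)) R := by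
    intro R x
    rw [eval, eval₂Hom_bind₁]
    rfl
  obtain ⟨a, M, haM⟩ := exists_tangent hSc hne B V (fun i => hB i) (Φ j0) (Φ j1) (by
      obtain ⟨z, hz, h⟩ := hg0
      intro h0
      apply h
      rw [← hΦ z hz, ← hVP ⟨z, hz⟩, h0, map_zero]) (by
      intro m c hc
      apply hNA m c
      intro z
      have h1 := congrArg (evz z) hc
      rw [map_sum, map_zero] at h1
      rw [← h1]
      refine Finset.sum_congr rfl fun k _ => ?_
      rw [map_mul, map_mul, map_pow, map_pow, hVP, hVP, hΦ z z.2, hΦ z z.2])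
  set β : Matrix (Fin n) (Fin n) ℂ := (U a)⁻¹ * Matrix.of fun i j => M (i, j) with hβ
  have hUβ : ∀ p : Fin n × Fin n, (U a * β) p.1 p.2 = M p := by
    intro p
    rw [hβ, ← Matrix.mul_assoc, Matrix.mul_nonsing_inv _ ((hdet a a.2).isUnit), Matrix.one_mul]
    rfl
  obtain ⟨haP, haG⟩ := haM (WW β) (fun i => by simp [WW]) (fun p => by
    rw [← hUβ p, Matrix.mul_apply]
    simp only [WW, Sum.elim_inr, map_sum, map_mul, eval_X, eval_C]
    rfl)
  rw [hVe] at haG haP
  have hδ : ∀ P, Rel v S P → Rel v S (mkDerivation ℂ (WW β) P) :=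
    rel_of_point hS hSc hsol (comm_EW d A β) a.2 (fun P hP => haP P ((hrel P).mp hP))
  -- the one-parameter group
  obtain ⟨Λ, mu, x, ex, hΛ, -, hex, he0, he⟩ := exp_flowW β
  let y : ℂ → ℂ → ι ⊕ (Fin n × Fin n) → ℂ := fun z t =>
    Sum.elim (fun i => b i z) (fun p => (U z * ex t) p.1 p.2)
  have hy0 : ∀ z, y z 0 = v z := by
    intro z
    simp only [y, he0, Matrix.mul_one]
    rfl
  have hysol : ∀ z, Sol (WW β) (y z) univ := by
    intro z t _ l
    rcases l with i | ⟨i, j⟩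
    · simp only [y, Sum.elim_inl, WW, map_zero]
      exact hasDerivAt_const t _
    · simp only [y, Sum.elim_inr, WW, map_sum, map_mul, eval_X, eval_C]
      have h1 : HasDerivAt (fun s => (U z * ex s) i j) (∑ k, U z i k * (ex t * β) k j) t := by
        simp only [Matrix.mul_apply]
        apply HasDerivAt.fun_sum
        intro k _
        have := (he t k j).const_mul (U z i k)
        rw [Matrix.mul_apply] at this
        exact this
      refine h1.congr_deriv ?_
      rw [← Matrix.mul_apply, ← Matrix.mul_assoc, Matrix.mul_apply]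
  have hyP : ∀ z ∈ S, ∀ P, Rel v S P → ∀ t, eval (y z t) P = 0 := fun z hz P hP t =>
    rel_flow hδ hz (y z) (hysol z) (hy0 z) P hP t
  -- the boundary
  have hqe' : ∀ (x : ι ⊕ (Fin n × Fin n) → ℂ),
      eval x (bind₁ Φ Q) = eval (fun j => eval x (Φ j)) Q := hqe Q
  set qq := bind₁ Φ Q with hqq
  have hqS : ∀ z ∈ S, eval (v z) qq = eval (f z) Q := fun z hz => by rw [hqe', hFS z hz]
  have hR1 : Rel v S (mkDerivation ℂ (EE d A) qq - X (Sum.inl iq) * qq) := by
    intro s hs
    have h1 := hasDerivAt_sol (EE d A) v s (hsol s hs) qq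
    have h2 : HasDerivAt (fun w => eval (v w) qq) (b iq s * eval (v s) qq) s := by
      rw [hqS s hs]
      refine (hQ' s hs).congr_of_eventuallyEq ?_
      filter_upwards [hS.mem_nhds hs] with w hw
      exact hqS w hw
    have h3 := h1.unique h2
    rw [map_sub, map_mul, h3, eval_X]
    exact sub_self _
  have hR2 : Rel v S (mkDerivation ℂ (EE d A) (mkDerivation ℂ (WW β) qq)
      - X (Sum.inl iq) * mkDerivation ℂ (WW β) qq) := by
    have h1 := hδ _ hR1
    rw [map_sub, Derivation.leibniz, mkDerivation_X, ← comm_of_X (comm_EW d A β)] at h1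
    simpa [WW] using h1
  obtain ⟨γ, hγ⟩ : ∃ γ : ℂ, Rel v S (mkDerivation ℂ (WW β) qq - C γ * qq) := by
    have hqn : ∀ s ∈ S, eval (v s) qq ≠ 0 := fun s hs => by rw [hqS s hs]; exact hQ s hs
    have h1 : ∀ s ∈ S, HasDerivAt (fun s => eval (v s) (mkDerivation ℂ (WW β) qq) / eval (v s) qq)
        0 s := by
      intro s hs
      have h2 := hasDerivAt_sol (EE d A) v s (hsol s hs) (mkDerivation ℂ (WW β) qq)
      have h3 := hasDerivAt_sol (EE d A) v s (hsol s hs) qq
      refine (h2.div h3 (hqn s hs)).congr_deriv ?_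
      have h4 := hR1 s hs
      have h5 := hR2 s hs
      rw [map_sub, map_mul, eval_X, sub_eq_zero] at h4 h5
      rw [h4, h5, div_eq_zero_iff]
      left
      ring
    refine ⟨eval (v a) (mkDerivation ℂ (WW β) qq) / eval (v a) qq, ?_⟩
    intro s hs
    have h6 : eval (v s) (mkDerivation ℂ (WW β) qq) / eval (v s) qq
        = eval (v a) (mkDerivation ℂ (WW β) qq) / eval (v a) qq := by
      have h7 : DifferentiableOn ℂ
          (fun s => eval (v s) (mkDerivation ℂ (WW β) qq) / eval (v s) qq) S :=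
        fun s hs => (h1 s hs).differentiableAt.differentiableWithinAt
      have h8 : EqOn (deriv (fun s => eval (v s) (mkDerivation ℂ (WW β) qq) / eval (v s) qq)) 0 S :=
        fun s hs => (h1 s hs).deriv
      exact hS.is_const_of_deriv_eq_zero hSc h7 h8 hs a.2
    rw [map_sub, map_mul, eval_C, ← h6, div_mul_cancel₀ _ (hqn s hs), sub_self]
  have hqt : ∀ z ∈ S, ∀ t, eval (y z t) qq = eval (v z) qq * Complex.exp (γ * t) := by
    intro z hz
    have h1 : ∀ t, HasDerivAt (fun t => eval (y z t) qq * Complex.exp (-γ * t)) 0 t := by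
      intro t
      have h2 := hasDerivAt_sol (WW β) (y z) t (hysol z t (mem_univ t)) qq
      have h3 : HasDerivAt (fun t : ℂ => Complex.exp (-γ * t)) (Complex.exp (-γ * t) * (-γ)) t := by
        have := ((hasDerivAt_id t).const_mul (-γ)).cexp
        simpa using this
      refine (h2.mul h3).congr_deriv ?_
      have h4 := hyP z hz _ hγ t
      rw [map_sub, map_mul, eval_C, sub_eq_zero] at h4
      rw [h4]
      ring
    intro t
    have h5 := is_const_of_deriv_eq_zero (fun t => (h1 t).differentiableAt)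
      (fun t => (h1 t).deriv) t 0
    simp only [hy0, mul_zero, Complex.exp_zero, mul_one] at h5
    rw [← h5, mul_assoc, ← Complex.exp_add]
    simp
  refine ⟨fun z t j => eval (y z t) (Φ j), Λ, mu, fun z μ a j =>
    ∑ k, ∑ l, b (L j k) z * c l * ∑ m, U z k m * x μ a m l,
    fun z => eval (v z) (mkDerivation ℂ (WW β) (Φ j1)) * eval (v z) (Φ j0) -
      eval (v z) (Φ j1) * eval (v z) (mkDerivation ℂ (WW β) (Φ j0)), γ, hΛ, ?_, ?_, ?_, ?_, ?_, ?_, ?_⟩
  · intro z t j
    have h1 : eval (y z t) (Φ j) = ∑ k, ∑ l, b (L j k) z * c l * ∑ m, U z k m * ex t m l := by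
      simp only [Φ, map_sum, map_mul, eval_C, eval_X, y, Sum.elim_inr, Sum.elim_inl,
        Matrix.mul_apply]
    beta_reduce
    rw [h1]
    simp only [hex, Finset.mul_sum]
    have e1 : ∀ k l, ∑ m, ∑ μ ∈ Λ, ∑ a ∈ Finset.range (mu μ), b (L j k) z * c l *
        (U z k m * (Complex.exp (μ * t) * t ^ a * x μ a m l)) =
        ∑ μ ∈ Λ, ∑ a ∈ Finset.range (mu μ), ∑ m, b (L j k) z * c l *
        (U z k m * (Complex.exp (μ * t) * t ^ a * x μ a m l)) := by
      intro k l
      rw [Finset.sum_comm]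
      refine Finset.sum_congr rfl fun μ _ => ?_
      rw [Finset.sum_comm]
    simp only [e1]
    have e2 : ∀ k, ∑ l, ∑ μ ∈ Λ, ∑ a ∈ Finset.range (mu μ), ∑ m, b (L j k) z * c l *
        (U z k m * (Complex.exp (μ * t) * t ^ a * x μ a m l)) =
        ∑ μ ∈ Λ, ∑ a ∈ Finset.range (mu μ), ∑ l, ∑ m, b (L j k) z * c l *
        (U z k m * (Complex.exp (μ * t) * t ^ a * x μ a m l)) := by
      intro k
      rw [Finset.sum_comm]
      refine Finset.sum_congr rfl fun μ _ => ?_
      rw [Finset.sum_comm]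
    simp only [e2]
    rw [Finset.sum_comm]
    refine Finset.sum_congr rfl fun μ _ => ?_
    rw [Finset.sum_comm]
    refine Finset.sum_congr rfl fun a _ => ?_
    refine Finset.sum_congr rfl fun k _ => ?_
    refine Finset.sum_congr rfl fun l _ => ?_
    refine Finset.sum_congr rfl fun m _ => ?_
    ring
  · intro z hz t
    have h1 := hqt z hz t
    rw [hqe', hqS z hz] at h1
    exact h1
  · intro z hz
    funext j
    change eval (y z 0) (Φ j) = _
    rw [hy0, hΦ z hz]
  · intro R hR z hz t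
    have h1 := hyP z hz (bind₁ Φ R) (fun s hs => by rw [hqe, hFS s hs]; exact hR s hs) t
    rw [hqe] at h1
    exact h1
  · exact ((hsol.analytic hS _).mul (hsol.analytic hS _)).sub
      ((hsol.analytic hS _).mul (hsol.analytic hS _))
  · exact ⟨a, a.2, haG⟩
  · intro z hz ht
    have h1 : ∀ j, HasDerivAt (fun t => eval (y z t) (Φ j))
        (eval (v z) (mkDerivation ℂ (WW β) (Φ j))) 0 := by
      intro j
      have := hasDerivAt_sol (WW β) (y z) 0 (hysol z 0 (mem_univ 0)) (Φ j)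
      rwa [hy0] at this
    have h2 := (h1 j1).mul_const (f z j0)
    have h3 := (h1 j0).mul_const (f z j1)
    have h4 : (fun t => eval (y z t) (Φ j1) * f z j0) = fun t => eval (y z t) (Φ j0) * f z j1 :=
      funext ht
    rw [h4] at h2
    have h5 := h2.unique h3
    beta_reduce
    rw [hΦ z hz, hΦ z hz]
    linear_combination h5

end Pool.Agent.Q33.OD
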