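import Pool.Agent.Q33.OD.Flow
import Pool.Agent.Q33.OD.Sample

/-!
Curves given by linear differential equations of bounded order over a differential ring: one
exceptional form.
-/

set_option autoImplicit false

namespace Pool.Agent.Q33.OD

open MvPolynomial Metric Set Filter Topology Pool.Agent.TH143 Pool.Agent.TH143.GT

variable {Ω : Set ℂ} {B : Subalgebra ℂ (ℂ → ℂ)}

/-- On `Ω`, `f = M y` where `y' = (A / s) y`, with matrices `A`, `M` over `B` and `0 ≠ s ∈ B`, and the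
system has at most `r` rows. -/
def LinSys (r : ℕ) (Ω : Set ℂ) (B : Subalgebra ℂ (ℂ → ℂ)) {N : ℕ} (f : ℂ → Fin (N + 1) → ℂ) :
    Prop :=
  ∃ (n : ℕ) (s : ℂ → ℂ) (A : Fin n → Fin n → ℂ → ℂ) (M : Fin (N + 1) → Fin n → ℂ → ℂ)
    (y : ℂ → Fin n → ℂ), n ≤ r ∧ s ∈ B ∧ (∃ z ∈ Ω, s z ≠ 0) ∧ (∀ i k, A i k ∈ B) ∧
    (∀ j k, M j k ∈ B) ∧ ∀ z ∈ Ω, s z ≠ 0 →
      (∀ i, HasDerivAt (fun w => y w i) ((∑ k, A i k z * y z k) / s z) z) ∧
      ∀ j, f z j = ∑ k, M j k z * y z k

/-- functions which satisfy linear differential equations of order at most `m` -/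
theorem linSys_of_linOrd (hΩc : IsPreconnected Ω) (hne : Ω.Nonempty)
    (hB : DiffRing Ω B) {N : ℕ} {f : ℂ → Fin (N + 1) → ℂ} {r : ℕ}
    (hf : ∀ j, AnalyticOnNhd ℂ (fun w => f w j) Ω) (hlin : ∀ j, LinOrd r Ω B (fun w => f w j)) :
    LinSys ((N + 1) * r) Ω B f := by
  classical
  choose m l a hmr hlB haB hl0 hnorm using fun j => (hlin j).normal
  -- a nonzero product of analytic functions
  have hprod : ∀ T : Finset (Fin (N + 1)), ∃ z ∈ Ω, (∏ j ∈ T, l j z) ≠ 0 := by
    intro T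
    induction T using Finset.induction_on with
    | empty =>
      obtain ⟨z, hz⟩ := hne
      exact ⟨z, hz, by simp⟩
    | insert j T hj ih =>
      by_contra hcon
      push Not at hcon
      simp only [Finset.prod_insert hj] at hcon
      have hT : AnalyticOnNhd ℂ (fun z => ∏ j ∈ T, l j z) Ω := by
        intro z hz
        apply Finset.analyticAt_fun_prod
        intro i _
        exact hB.an _ (hlB i) z hz
      rcases AnalyticOnNhd.eq_zero_or_eq_zero_of_mul_eq_zero (hB.an _ (hlB j)) hT hcon hΩc with h | h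
      · obtain ⟨z, hz, hz'⟩ := hl0 j
        exact hz' (h z hz)
      · obtain ⟨z, hz, hz'⟩ := ih
        exact hz' (h z hz)
  let s : ℂ → ℂ := ∏ j, l j
  have hs : ∀ z, s z = ∏ j, l j z := fun z => Finset.prod_apply z _ _
  have hsB : s ∈ B := B.prod_mem fun j _ => hlB j
  obtain ⟨z0, hz0, hsz0⟩ := hprod Finset.univ
  rw [← hs] at hsz0
  -- the system
  let num : Fin (N + 1) → ℕ → ℂ → ℂ := fun j k => a j k * ∏ i ∈ Finset.univ.erase j, l i
  have hnumB : ∀ j k, num j k ∈ B := fun j k =>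
    B.mul_mem (haB j k) (B.prod_mem fun i _ => hlB i)
  have hnum : ∀ j k z, s z ≠ 0 → l j z ≠ 0 ∧ num j k z / s z = a j k z / l j z := by
    intro j k z hz
    have h2 : s z = l j z * ∏ i ∈ Finset.univ.erase j, l i z := by
      rw [hs, Finset.mul_prod_erase _ (fun i => l i z) (Finset.mem_univ j)]
    have h3 : l j z ≠ 0 := fun h => hz (by rw [h2, h, zero_mul])
    have h4 : (∏ i ∈ Finset.univ.erase j, l i z) ≠ 0 := fun h => hz (by rw [h2, h, mul_zero])
    refine ⟨h3, ?_⟩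
    simp only [num, Pi.mul_apply, Finset.prod_apply]
    rw [h2]
    field_simp
  obtain ⟨n, A, y, L, hn, hA, hsys⟩ := exists_system' (fun j w => f w j) m
    (fun j k z => num j k z / s z)
  have hAB : ∀ i k, ∃ b ∈ B, ∀ z, s z ≠ 0 → A i k z = b z / s z := by
    intro i k
    obtain ⟨α, ε, j, p, hp⟩ := hA i k
    refine ⟨algebraMap ℂ (ℂ → ℂ) α * s + algebraMap ℂ (ℂ → ℂ) ε * num j p,
      B.add_mem (B.mul_mem (B.algebraMap_mem α) hsB) (B.mul_mem (B.algebraMap_mem ε) (hnumB j p)),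
      fun z hz => ?_⟩
    rw [hp, Pi.add_apply, Pi.mul_apply, Pi.mul_apply]
    have h3 : ∀ c : ℂ, (algebraMap ℂ (ℂ → ℂ) c) z = c := fun c => rfl
    rw [h3, h3]
    field_simp
  choose bA hbA hbAe using hAB
  refine ⟨n, s, bA, fun j k => algebraMap ℂ (ℂ → ℂ) (L j k), y, ?_, hsB, ⟨z0, hz0, hsz0⟩, hbA,
    fun j k => B.algebraMap_mem _, ?_⟩
  · rw [hn]
    calc ∑ j, m j ≤ ∑ _j : Fin (N + 1), r := Finset.sum_le_sum fun j _ => hmr j
      _ = (N + 1) * r := by simp
  · intro w hw hsw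
    obtain ⟨h1, h2⟩ := hsys w (fun j => hf j w hw) (by
      intro j
      rw [hnorm j w hw (hnum j 0 w hsw).1]
      refine Finset.sum_congr rfl fun k _ => ?_
      rw [(hnum j k w hsw).2])
    refine ⟨fun i => ?_, h2⟩
    refine (h1 i).congr_deriv ?_
    rw [Finset.sum_div]
    refine Finset.sum_congr rfl fun k _ => ?_
    rw [hbAe i k w hsw]
    ring

theorem flow_gen (hΩ : IsOpen Ω) (hΩc : IsPreconnected Ω) (hB : DiffRing Ω B)
    {N : ℕ} (f : ℂ → Fin (N + 1) → ℂ) {r : ℕ}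
    (hf : ∀ j, AnalyticOnNhd ℂ (fun w => f w j) Ω) (hlin : LinSys r Ω B f)
    (j0 j1 : Fin (N + 1)) (h0 : ∃ z ∈ Ω, f z j0 ≠ 0)
    (h1 : ¬ AlgOver Ω B (fun w => f w j1) (fun w => f w j0)) :
    ∃ (S : Set ℂ) (n : ℕ) (h : ℂ → ℂ → Fin (N + 1) → ℂ) (Λ : Finset ℂ)
      (q : ℂ → ℂ → ℕ → Fin (N + 1) → ℂ) (w : ℂ → ℂ),
      IsOpen S ∧ IsPreconnected S ∧ S.Nonempty ∧ S ⊆ Ω ∧ n ≤ r ∧ Λ.card ≤ n ∧
      (∀ z t j, h z t j =
        ∑ μ ∈ Λ, ∑ a ∈ Finset.range n, Complex.exp (μ * t) * t ^ a * q z μ a j) ∧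
      (∀ z ∈ S, h z 0 = f z) ∧
      (∀ R : MvPolynomial (Fin (N + 1)) ℂ, (∀ z ∈ S, eval (f z) R = 0) →
        ∀ z ∈ S, ∀ t, eval (h z t) R = 0) ∧
      AnalyticOnNhd ℂ w S ∧ (∃ z ∈ S, w z ≠ 0) ∧
      ∀ z ∈ S, (∀ t, h z t j1 * f z j0 = h z t j0 * f z j1) → w z = 0 := by
  classical
  obtain ⟨n, s, A, M, y, hnr, hsB, ⟨z0, hz0, hsz0⟩, hAB, hMB, hsys⟩ := hlin
  have hsan := hB.an s hsB
  set Ω' := {z ∈ Ω | s z ≠ 0} with hΩ'
  have hΩ'o : IsOpen Ω' := by
    rw [isOpen_iff_mem_nhds]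
    intro z hz
    filter_upwards [hΩ.mem_nhds hz.1, (hsan z hz.1).continuousAt.eventually_ne hz.2] with w h2 h3
    exact ⟨h2, h3⟩
  choose! der hderB hder using hB.der
  have hAan : ∀ i k, AnalyticOnNhd ℂ (fun z => A i k z / s z ^ 1) Ω' := fun i k z hz =>
    (hB.an _ (hAB i k) z hz.1).fun_div ((hsan z hz.1).fun_pow 1) (pow_ne_zero _ hz.2)
  obtain ⟨rr, hr, hrS, U, hU, hdet⟩ := exists_fund hΩ'o
    (fun z => Matrix.of fun i k => A i k z / s z ^ 1) (fun i k => by
      simpa only [Matrix.of_apply] using hAan i k)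
    (show z0 ∈ Ω' from ⟨hz0, hsz0⟩)
  set S := ball z0 rr with hS
  have hz0S : z0 ∈ S := mem_ball_self hr
  have hSo : IsOpen S := isOpen_ball
  have hSc : IsPreconnected S := (convex_ball z0 rr).isPreconnected
  have hSs : ∀ z ∈ S, s z ≠ 0 := fun z hz => (hrS hz).2
  have hSΩ : S ⊆ Ω := fun z hz => (hrS hz).1
  set c : Fin n → ℂ := Matrix.mulVec (U z0)⁻¹ (y z0) with hc
  have hyU : ∀ z ∈ S, ∀ i, y z i = ∑ l, U z i l * c l := by
    have h2 := sol_zero (a := z0) (r := rr) (fun i k z => A i k z / s z ^ 1)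
      (fun i k => (hAan i k).mono hrS)
      (fun z i => y z i - ∑ l, U z i l * c l) (by
        intro z hz i
        have h3 := (hsys z (hrS hz).1 (hrS hz).2).1 i
        have h4 : HasDerivAt (fun z => ∑ l, U z i l * c l)
            (∑ l, (∑ k, A i k z / s z ^ 1 * U z k l) * c l) z := by
          apply HasDerivAt.fun_sum
          intro l _
          have h5 := (hU z hz i l).mul_const (c l)
          rw [Matrix.mul_apply] at h5
          exact h5
        refine (h3.fun_sub h4).congr_deriv ?_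
        simp only [mul_sub, Finset.sum_sub_distrib, Finset.sum_mul,
          Finset.mul_sum]
        congr 1
        · rw [Finset.sum_div]
          refine Finset.sum_congr rfl fun k _ => ?_
          ring
        rw [Finset.sum_comm]
        refine Finset.sum_congr rfl fun k _ => Finset.sum_congr rfl fun l _ => ?_
        ring) (by
        intro i
        have h6 : ∑ l, U z0 i l * c l = y z0 i := by
          have h7 : Matrix.mulVec (U z0) c = y z0 := by
            rw [hc, Matrix.mulVec_mulVec, Matrix.mul_nonsing_inv _ ((hdet z0 hz0S).isUnit),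
              Matrix.one_mulVec]
          rw [← h7]
          rfl
        rw [h6, sub_self])
    intro z hz i
    exact sub_eq_zero.mp (h2 z hz i)
  -- the coefficients
  let bb : B × ℕ → ℂ → ℂ := fun p z => p.1.1 z / s z ^ p.2
  have hbb : ∀ p, AnalyticOnNhd ℂ (bb p) S := fun p z hz =>
    (hB.an _ p.1.2 z (hSΩ hz)).fun_div ((hsan z (hSΩ hz)).fun_pow _) (pow_ne_zero _ (hSs z hz))
  let dd : B × ℕ → B × ℕ := fun p =>
    (⟨der p.1.1 * s - algebraMap ℂ (ℂ → ℂ) (p.2 : ℂ) * p.1.1 * der s,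
      B.sub_mem (B.mul_mem (hderB _ p.1.2) hsB)
        (B.mul_mem (B.mul_mem (B.algebraMap_mem _) p.1.2) (hderB _ hsB))⟩, p.2 + 1)
  have hdd : ∀ p, ∀ z ∈ S, HasDerivAt (bb p) (bb (dd p) z) z := by
    rintro ⟨b, k⟩ z hz
    have h2 := hder b.1 b.2 z (hSΩ hz)
    have h3 := hder s hsB z (hSΩ hz)
    have h4 := hSs z hz
    refine (h2.fun_div (h3.fun_pow k) (pow_ne_zero k h4)).congr_deriv ?_
    have h5 : ∀ c : ℂ, (algebraMap ℂ (ℂ → ℂ) c) z = c := fun c => rfl
    simp only [bb, dd, Pi.sub_apply, Pi.mul_apply, h5]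
    cases k with
    | zero => simp; field_simp
    | succ k =>
      rw [Nat.add_sub_cancel]
      field_simp
      ring
  have hg0an : AnalyticOnNhd ℂ (fun w => f w j0) Ω := hf j0
  have hg1an : AnalyticOnNhd ℂ (fun w => f w j1) Ω := hf j1
  obtain ⟨h, Λ, q, w, e1, e2, e3, e4, e5, e6, e7⟩ := flow_local hSo hSc ⟨z0, hz0S⟩ bb hbb dd hdd
    (fun i k => (⟨A i k, hAB i k⟩, 1)) U
    (fun z hz i j => by
      have := hU z hz i j
      rw [Matrix.mul_apply] at this
      exact this) hdet (locAlg B s hsB S hSs) (fun p => ⟨p.1.1, p.1.2, p.2, fun z => rfl⟩)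
    (fun j k => (⟨M j k, hMB j k⟩, 0)) c f
    (by
      intro z hz j
      rw [(hsys z (hrS hz).1 (hrS hz).2).2 j]
      refine Finset.sum_congr rfl fun k _ => ?_
      rw [hyU z hz k, Finset.mul_sum]
      refine Finset.sum_congr rfl fun l _ => ?_
      simp only [bb, pow_zero, div_one]
      ring) j0 j1
    (by
      by_contra hcon
      push Not at hcon
      have h3 : (fun w => f w j0) =ᶠ[𝓝 z0] 0 := by
        filter_upwards [hSo.mem_nhds hz0S] with z hz
        exact hcon z hz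
      have h4 := hg0an.eqOn_zero_of_preconnected_of_eventuallyEq_zero hΩc hz0 h3
      obtain ⟨z, hz, hz'⟩ := h0
      exact hz' (h4 hz))
    (by
      intro m cc hcc
      choose bk hbkB kk hbk using fun k => (cc k).2
      let K := ∑ k ∈ Finset.range (m + 1), kk k
      have hkK : ∀ k ∈ Finset.range (m + 1), kk k ≤ K := fun k hk =>
        Finset.single_le_sum (f := kk) (fun _ _ => Nat.zero_le _) hk
      let c' : ℕ → ℂ → ℂ := fun k => bk k * s ^ (K - kk k)
      have hc'B : ∀ k, c' k ∈ B := fun k => B.mul_mem (hbkB k) (B.pow_mem hsB _)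
      have hsubk : ∀ k, AnalyticOnNhd ℂ (c' k) Ω := fun k => hB.an _ (hc'B k)
      have h2 : ∀ z ∈ S, ∑ k ∈ Finset.range (m + 1),
          c' k z * f z j1 ^ k * f z j0 ^ (m - k) = 0 := by
        intro z hz
        have h3 := congrArg (fun x => s z ^ K * x) (hcc ⟨z, hz⟩)
        simp only [mul_zero] at h3
        rw [← h3, Finset.mul_sum]
        refine Finset.sum_congr rfl fun k hk => ?_
        rw [hbk k ⟨z, hz⟩]
        have h4 := hSs z hz
        simp only [c', Pi.mul_apply, Pi.pow_apply]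
        have h5 : s z ^ K = s z ^ (K - kk k) * s z ^ (kk k) := by
          rw [← pow_add, Nat.sub_add_cancel (hkK k hk)]
        rw [h5]
        field_simp
      have h3 : AnalyticOnNhd ℂ (fun z => ∑ k ∈ Finset.range (m + 1),
          c' k z * f z j1 ^ k * f z j0 ^ (m - k)) Ω := by
        intro z hz
        apply Finset.analyticAt_fun_sum
        intro k _
        exact ((hsubk k z hz).fun_mul ((hg1an z hz).fun_pow k)).fun_mul
          ((hg0an z hz).fun_pow _)
      have h4 := h3.eqOn_zero_of_preconnected_of_eventuallyEq_zero hΩc hz0 (by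
        filter_upwards [hSo.mem_nhds hz0S] with z hz
        exact h2 z hz)
      have h5 : ∀ k ≤ m, ∀ z ∈ Ω, c' k z = 0 := by
        intro k hk z hz
        by_contra hnz
        exact h1 ⟨m, c', hc'B, ⟨k, hk, z, hz, hnz⟩, fun z hz => h4 hz⟩
      intro k hk
      apply Subtype.ext
      apply hol_ext
      intro z
      rw [hbk k z]
      have h6 := h5 k hk z (hSΩ z.2)
      have h7 := (mul_eq_zero.mp h6).resolve_right (pow_ne_zero _ (hSs z z.2))
      rw [h7, zero_div]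
      rfl)
  refine ⟨S, n, h, Λ, q, w, hSo, hSc, ⟨z0, hz0S⟩, hSΩ, hnr, e1, e2, e3, e4, e5, e6, e7⟩

end Pool.Agent.Q33.OD
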