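import Pool.Agent.Q33.OD.Gen
import Pool.Agent.TH717.GO.Hyp

/-!
One exceptional form for all curves given by linear differential equations of bounded order over
any differential ring.
-/

set_option autoImplicit false

namespace Pool.Agent.Q33.OD

open MvPolynomial Metric Set Filter Topology Pool.Agent.TH143 Pool.Agent.TH143.GT

theorem ode_core {k : Type} [Field k] [CharZero k] [Algebra k ℂ] {N : ℕ}
    (FF : Set (MvPolynomial (Fin (N + 1)) k)) (hhom : ∀ F ∈ FF, ∃ e, F.IsHomogeneous e)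
    (G : MvPolynomial (Fin (N + 1)) k) (r : ℕ)
    (hCC : Pool.Agent.TH717.GO.CurCond FF G (r * r))
    {Ω : Set ℂ} {B : Subalgebra ℂ (ℂ → ℂ)} (hΩ : IsOpen Ω) (hΩc : IsPreconnected Ω)
    (hB : DiffRing Ω B) {f : ℂ → Fin (N + 1) → ℂ} (hf : ∀ j, AnalyticOnNhd ℂ (fun w => f w j) Ω)
    (hlin : LinSys r Ω B f) (hF : ∀ F ∈ FF, ∀ z ∈ Ω, aeval (f z) F = 0)
    (hG : ∃ z ∈ Ω, aeval (f z) G ≠ 0) (i j : Fin (N + 1)) (hj : ∃ z ∈ Ω, f z j ≠ 0) :
    AlgOver Ω B (fun w => f w i) (fun w => f w j) := by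
  classical
  by_contra hna
  obtain ⟨S, n, h, Λ, q, w, hSo, hSc, hSne, hSΩ, hn, hΛ, hh, h0, hR, hw, hw0, hw1⟩ :=
    flow_gen hΩ hΩc hB f hf hlin j i hj hna
  have hae : ∀ (x : Fin (N + 1) → ℂ) (P : MvPolynomial (Fin (N + 1)) k),
      aeval x P = eval x (MvPolynomial.map (algebraMap k ℂ) P) := by
    intro x P
    rw [MvPolynomial.eval_map]
    rfl
  have hGan : AnalyticOnNhd ℂ (fun z => aeval (f z) G) Ω := by
    have : (fun z => aeval (f z) G) = fun z => eval (f z) (MvPolynomial.map (algebraMap k ℂ) G) :=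
      funext fun z => hae _ _
    rw [this]
    exact eval_an' hf _
  have key : ∀ z ∈ S, w z * aeval (f z) G = 0 := by
    intro z hz
    by_cases hGz : aeval (f z) G = 0
    · rw [hGz, mul_zero]
    have h1 := few_exp_core FF hhom G r hCC n Λ (q z) (h z) hn (hΛ.trans hn)
      (fun t j => hh z t j) (by
      intro F hF' t
      rw [hae]
      apply hR _ _ z hz t
      intro z' hz'
      rw [← hae]
      exact hF F hF' z' (hSΩ hz')) (by rw [h0 z hz]; exact hGz)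
    rw [hw1 z hz, zero_mul]
    intro t
    have h2 := h1 t i j
    rw [h0 z hz] at h2
    exact h2
  rcases AnalyticOnNhd.eq_zero_or_eq_zero_of_mul_eq_zero hw (hGan.mono hSΩ) key hSc with h1 | h1
  · obtain ⟨z, hz, hz'⟩ := hw0
    exact hz' (h1 z hz)
  · obtain ⟨z0, hz0⟩ := hSne
    have h3 : (fun z => aeval (f z) G) =ᶠ[𝓝 z0] 0 := by
      filter_upwards [hSo.mem_nhds hz0] with z hz
      exact h1 z hz
    have h4 := hGan.eqOn_zero_of_preconnected_of_eventuallyEq_zero hΩc (hSΩ hz0) h3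
    obtain ⟨z, hz, hz'⟩ := hG
    exact hz' (h4 hz)

theorem ode_main {k : Type} [Field k] [CharZero k] {N : ℕ}
    (FF : Finset (MvPolynomial (Fin (N + 1)) k))
    (hprime : (Ideal.span (FF : Set (MvPolynomial (Fin (N + 1)) k))).IsPrime)
    (hnu : ¬ Pool.Agent.H533R3.SL.Uniruled (Ideal.span (FF : Set (MvPolynomial (Fin (N + 1)) k))))
    (hhom : ∀ F ∈ FF, ∃ e, F.IsHomogeneous e) (r : ℕ) :
    ∃ G : MvPolynomial (Fin (N + 1)) k, (∃ e, G.IsHomogeneous e) ∧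
      G ∉ Ideal.span (FF : Set (MvPolynomial (Fin (N + 1)) k)) ∧
      ∀ [Algebra k ℂ] (Ω : Set ℂ) (B : Subalgebra ℂ (ℂ → ℂ)), IsOpen Ω → IsPreconnected Ω →
        DiffRing Ω B → ∀ f : ℂ → Fin (N + 1) → ℂ, (∀ j, AnalyticOnNhd ℂ (fun w => f w j) Ω) →
        LinSys r Ω B f → (∀ F ∈ FF, ∀ z ∈ Ω, aeval (f z) F = 0) →
        (∃ z ∈ Ω, aeval (f z) G ≠ 0) → ∀ i j, (∃ z ∈ Ω, f z j ≠ 0) →
        AlgOver Ω B (fun w => f w i) (fun w => f w j) := by
  classical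
  obtain ⟨G, hG1, hG2, hG3⟩ := Pool.Agent.TH717.GO.hyper_poly FF hprime hnu hhom
    (r * r)
  exact ⟨G, hG1, hG2, fun Ω B hΩ hΩc hB f hf hlin hF hG i j hj =>
    ode_core (FF : Set (MvPolynomial (Fin (N + 1)) k)) hhom G r hG3 hΩ hΩc hB hf hlin hF hG i j hj⟩

end Pool.Agent.Q33.OD
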