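import Pool.Agent.Q33.OD.Both

/-!
Polynomial curves in uniruled varieties over number fields.
-/

set_option autoImplicit false

namespace Pool.Agent.Q33.OD

open MvPolynomial Metric Set Filter Topology Pool.Agent.TH143 Pool.Agent.TH143.GT
open Pool.Agent.H533R3.SL Pool.Agent.TH717.GO

variable {n : ℕ}

/-- the constants form a differential ring -/
theorem const_diffRing (Ω : Set ℂ) : DiffRing Ω (⊥ : Subalgebra ℂ (ℂ → ℂ)) := by
  refine ⟨fun b hb => ?_, fun b hb => ?_⟩
  · obtain ⟨c, rfl⟩ := Algebra.mem_bot.1 hb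
    intro z _
    exact analyticAt_const
  · obtain ⟨c, rfl⟩ := Algebra.mem_bot.1 hb
    exact ⟨0, Subalgebra.zero_mem _, fun z _ => hasDerivAt_const z c⟩

theorem eval_coeff_sum {r : ℕ} (p : Polynomial ℂ) (hp : ∀ m, r ≤ m → p.coeff m = 0) (z : ℂ) :
    p.eval z = ∑ k : Fin r, p.coeff k * z ^ (k : ℕ) := by
  have h1 : p = ∑ k ∈ Finset.range r, Polynomial.C (p.coeff k) * Polynomial.X ^ k := by
    ext m
    rw [Polynomial.finsetSum_coeff]
    simp only [Polynomial.coeff_C_mul, Polynomial.coeff_X_pow]
    by_cases hm : r ≤ m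
    · rw [hp m hm]
      symm
      apply Finset.sum_eq_zero
      intro k hk
      rw [Finset.mem_range] at hk
      rw [if_neg (by omega), mul_zero]
    · rw [Finset.sum_eq_single m]
      · simp
      · intro k _ hk
        rw [if_neg (Ne.symm hk), mul_zero]
      · intro h
        exact absurd (Finset.mem_range.2 (not_le.1 hm)) h
  conv_lhs => rw [h1]
  rw [Polynomial.eval_finsetSum, Finset.sum_range]
  simp

/-- curves with polynomial coordinates of degree less than `r` -/
theorem linSys_poly {r : ℕ} (p : Fin (n + 1) → Polynomial ℂ) (hp : ∀ i m, r ≤ m → (p i).coeff m = 0) :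
    LinSys r univ (⊥ : Subalgebra ℂ (ℂ → ℂ)) (fun z i => (p i).eval z) := by
  refine ⟨r, fun _ => 1, fun i k _ => if (k : ℕ) + 1 = i then ((i : ℕ) : ℂ) else 0,
    fun j k _ => (p j).coeff k, fun z k => z ^ (k : ℕ), le_rfl,
    Subalgebra.one_mem _, ⟨0, mem_univ 0, one_ne_zero⟩, ?_, ?_, ?_⟩
  · intro i k
    exact Subalgebra.algebraMap_mem _ _
  · intro j k
    exact Subalgebra.algebraMap_mem _ _
  · intro z _ _
    refine ⟨fun i => ?_, fun j => ?_⟩
    · refine (hasDerivAt_pow (i : ℕ) z).congr_deriv ?_
      beta_reduce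
      rw [div_one]
      by_cases hi : (i : ℕ) = 0
      · rw [hi]
        simp only [Nat.cast_zero, zero_mul]
        symm
        apply Finset.sum_eq_zero
        intro k _
        rw [if_neg (by omega), zero_mul]
      · have h1 : (i : ℕ) - 1 < r := by have := i.2; omega
        rw [Finset.sum_eq_single (⟨(i : ℕ) - 1, h1⟩ : Fin r)]
        · rw [if_pos (by simp; omega)]
        · intro k _ hk
          rw [if_neg, zero_mul]
          intro h2
          apply hk
          apply Fin.ext
          simp
          omega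
        · intro h2
          exact absurd (Finset.mem_univ _) h2
    · exact eval_coeff_sum (p j) (hp j) z

/-- a nonconstant polynomial curve is not algebraic over the constants -/
theorem not_alg_poly (p : Fin (n + 1) → Polynomial ℂ)
    (h : ∃ i j, p i * Polynomial.C ((p j).eval 1) ≠ p j * Polynomial.C ((p i).eval 1)) :
    ∃ i j, (∃ z ∈ (univ : Set ℂ), (p j).eval z ≠ 0) ∧
      ¬ AlgOver univ (⊥ : Subalgebra ℂ (ℂ → ℂ)) (fun z => (p i).eval z) (fun z => (p j).eval z) := by
  classical
  -- a pair which is not proportional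
  obtain ⟨a, b, hab⟩ := h
  obtain ⟨i, j, hj, hij⟩ : ∃ i j, p j ≠ 0 ∧ ∀ c : ℂ, p i ≠ Polynomial.C c * p j := by
    by_contra hcon
    push Not at hcon
    by_cases hb : p b = 0
    · by_cases ha : p a = 0
      · exact hab (by rw [ha, hb])
      · obtain ⟨c, hc⟩ := hcon b a ha
        apply hab
        rw [hc]
        simp only [Polynomial.eval_mul, Polynomial.eval_C, map_mul]
        ring
    · obtain ⟨c, hc⟩ := hcon a b hb
      apply hab
      rw [hc]
      simp only [Polynomial.eval_mul, Polynomial.eval_C, map_mul]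
      ring
  refine ⟨i, j, ?_, ?_⟩
  · by_contra hcon
    push Not at hcon
    apply hj
    apply Polynomial.funext
    intro z
    rw [hcon z (mem_univ z), Polynomial.eval_zero]
  · rintro ⟨m, c, hc, ⟨k0, hk0, z0, -, hz0⟩, hsum⟩
    choose d hd using fun k => Algebra.mem_bot.1 (hc k)
    have hcd : ∀ k z, c k z = d k := by
      intro k z
      rw [← hd k]
      rfl
    -- the polynomial of the values of the quotient
    let Q : Polynomial ℂ := ∑ k ∈ Finset.range (m + 1), Polynomial.C (d k) * Polynomial.X ^ k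
    have hQ : Q ≠ 0 := by
      intro h0
      have h1 : Q.coeff k0 = d k0 := by
        simp only [Q, Polynomial.finsetSum_coeff, Polynomial.coeff_C_mul, Polynomial.coeff_X_pow]
        rw [Finset.sum_eq_single k0]
        · simp
        · intro k _ hk
          rw [if_neg (Ne.symm hk), mul_zero]
        · intro h
          exact absurd (Finset.mem_range.2 (Nat.lt_succ_of_le hk0)) h
      rw [h0, Polynomial.coeff_zero] at h1
      apply hz0
      rw [hcd, ← h1]
    have hroot : ∀ z, (p j).eval z ≠ 0 → (p i).eval z / (p j).eval z ∈ Q.roots.toFinset := by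
      intro z hz
      rw [Multiset.mem_toFinset, Polynomial.mem_roots hQ, Polynomial.IsRoot.def]
      have h1 := hsum z (mem_univ z)
      simp only [Q, Polynomial.eval_finsetSum, Polynomial.eval_mul, Polynomial.eval_C,
        Polynomial.eval_pow, Polynomial.eval_X]
      have h2 : (∑ k ∈ Finset.range (m + 1), d k * ((p i).eval z / (p j).eval z) ^ k) *
          (p j).eval z ^ m = 0 := by
        rw [Finset.sum_mul, ← h1]
        refine Finset.sum_congr rfl fun k hk => ?_
        have hk' : k ≤ m := Nat.lt_succ_iff.1 (Finset.mem_range.1 hk)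
        rw [hcd, div_pow]
        have h3 : (p j).eval z ^ m = (p j).eval z ^ (m - k) * (p j).eval z ^ k := by
          rw [← pow_add, Nat.sub_add_cancel hk']
        rw [h3]
        field_simp
      exact (mul_eq_zero.1 h2).resolve_right (pow_ne_zero _ hz)
    have hprod : (∏ v ∈ Q.roots.toFinset, (p i - Polynomial.C v * p j)) * p j = 0 := by
      apply Polynomial.funext
      intro z
      rw [Polynomial.eval_mul, Polynomial.eval_prod, Polynomial.eval_zero]
      by_cases hz : (p j).eval z = 0
      · rw [hz, mul_zero]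
      · rw [Finset.prod_eq_zero (hroot z hz), zero_mul]
        rw [Polynomial.eval_sub, Polynomial.eval_mul, Polynomial.eval_C, div_mul_cancel₀ _ hz,
          sub_self]
    obtain ⟨v, -, hv⟩ := Finset.prod_eq_zero_iff.1 ((mul_eq_zero.1 hprod).resolve_right hj)
    exact hij v (sub_eq_zero.1 hv)

/-- **Converse**: uniruled varieties over number fields contain many polynomial curves -/
theorem opp_an {k : Type} [Field k] [NumberField k] (Z : Finset (MvPolynomial (Fin (n + 1)) k))
    (hu : Uniruled (Ideal.span (Z : Set (MvPolynomial (Fin (n + 1)) k)))) :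
    ∃ r : ℕ, ∀ [Algebra k ℂ] (G : MvPolynomial (Fin (n + 1)) k), (∃ e, G.IsHomogeneous e) →
      G ∉ Ideal.span (Z : Set (MvPolynomial (Fin (n + 1)) k)) →
      ∃ p : Fin (n + 1) → Polynomial ℂ, (∀ i m, r ≤ m → (p i).coeff m = 0) ∧
        (∀ F ∈ Z, aeval p F = 0) ∧ aeval (fun i => (p i).eval 1) G ≠ 0 ∧
        ∃ i j, p i * Polynomial.C ((p j).eval 1) ≠ p j * Polynomial.C ((p i).eval 1) := by
  classical
  obtain ⟨L, iL, iA, p, hp1, hp2, hp3⟩ := hu
  set N : ℕ := Finset.univ.sup (fun i => (p i).natDegree) + 1 with hN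
  have hNc : ∀ i m, N ≤ m → (p i).coeff m = 0 := by
    intro i m hm
    apply Polynomial.coeff_eq_zero_of_natDegree_lt
    have := Finset.le_sup (f := fun i => (p i).natDegree) (Finset.mem_univ i)
    omega
  refine ⟨N, ?_⟩
  intro iC G hG1 hG2
  obtain ⟨K, iK, iN, iAK, w, h1, h2, h3⟩ := Pool.Agent.TH409.SH.specialise k L p
    (Z : Set (MvPolynomial (Fin (n + 1)) k)) (by
      intro F hF
      exact hp1 F (Ideal.subset_span hF)) N hNc hp3 G (hp2 G hG1 hG2)
  have hfin : Module.Finite k K := Module.Finite.of_restrictScalars_finite ℚ k K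
  let τ : K →ₐ[k] ℂ := IsAlgClosed.lift
  let q : Fin (n + 1) → Polynomial K := cur w (fun j => (j : ℕ))
  have hqc : ∀ i m, N ≤ m → (q i).coeff m = 0 := by
    intro i m hm
    simp only [q, cur, Polynomial.finsetSum_coeff, Polynomial.coeff_C_mul, Polynomial.coeff_X_pow]
    apply Finset.sum_eq_zero
    intro j _
    rw [if_neg (by have := j.2; omega), mul_zero]
  have hmap : ∀ F : MvPolynomial (Fin (n + 1)) k,
      aeval (fun i => (q i).map (τ : K →+* ℂ)) F = (aeval q F).map (τ : K →+* ℂ) := by
    intro F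
    have h4 := MvPolynomial.comp_aeval_apply (R := k) q (Polynomial.mapAlgHom τ) F
    exact h4.symm
  have hev : ∀ i, ((q i).map (τ : K →+* ℂ)).eval 1 = τ ((q i).eval 1) := by
    intro i
    have h4 := Polynomial.eval_map_apply (p := q i) (f := (τ : K →+* ℂ)) (x := (1 : K))
    rw [map_one] at h4
    exact h4
  refine ⟨fun i => (q i).map (τ : K →+* ℂ), ?_, ?_, ?_, ?_⟩
  · intro i m hm
    rw [Polynomial.coeff_map, hqc i m hm, map_zero]
  · intro F hF
    rw [hmap, h1 F hF, Polynomial.map_zero]
  · simp only [hev]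
    have h4 : aeval (fun i => τ ((q i).eval 1)) G = τ (aeval (fun i => (q i).eval 1) G) :=
      (MvPolynomial.comp_aeval_apply (R := k) (fun i => (q i).eval 1) τ G).symm
    rw [h4]
    intro h0
    exact h3 (by rwa [map_eq_zero] at h0)
  · obtain ⟨i, j, hij⟩ := h2
    refine ⟨i, j, fun h0 => hij ?_⟩
    rw [hev, hev] at h0
    have h4 : ((q i) * Polynomial.C ((q j).eval 1)).map (τ : K →+* ℂ) =
        ((q j) * Polynomial.C ((q i).eval 1)).map (τ : K →+* ℂ) := by
      rw [Polynomial.map_mul, Polynomial.map_mul, Polynomial.map_C, Polynomial.map_C]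
      exact h0
    exact Polynomial.map_injective _ (τ : K →+* ℂ).injective h4

end Pool.Agent.Q33.OD
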