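import Pool.Agent.Q33.OD.GenW
import Pool.Agent.Q33.OD.Alg
import Pool.Agent.Q33.OD.Opp

/-!
Curves given by linear differential systems of bounded rank and curves with `r` terms have the same
Zariski closure.
-/

set_option autoImplicit false

namespace Pool.Agent.Q33.OD

open MvPolynomial Metric Set Filter Topology Pool.Agent.TH143 Pool.Agent.TH143.GT Pool.Agent.Q33.SP

variable {n r : ℕ} {ι : Type}

/-- A holomorphic map `f` from the domain `Ω` to `F = 0`, `Q ≠ 0`, given by a linear differential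
system with at most `r` rows over the differential ring `B` of holomorphic functions on `Ω`; the
logarithmic derivative of `Q(f)` is a quotient of elements of `B`, and some quotient of coordinates
of `f` is not algebraic over `B`. -/
structure OdeSp (r : ℕ) (F : ι → MvPolynomial (Fin (n + 1)) ℂ) (Q : MvPolynomial (Fin (n + 1)) ℂ)
    (Ω : Set ℂ) (B : Subalgebra ℂ (ℂ → ℂ)) (f : ℂ → Fin (n + 1) → ℂ) : Prop where
  op : IsOpen Ω
  conn : IsPreconnected Ω
  ring : DiffRing Ω B
  an : ∀ j, AnalyticOnNhd ℂ (fun w => f w j) Ω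
  on : ∀ z ∈ Ω, OnX F Q (f z)
  sys : LinSys r Ω B f
  log : LogDer Ω B (fun w => eval (f w) Q)
  nalg : ∃ i j, ¬ AlgOver Ω B (fun w => f w i) (fun w => f w j)

theorem nz_of_nalg {Ω : Set ℂ} (hne : Ω.Nonempty) {B : Subalgebra ℂ (ℂ → ℂ)} {g h : ℂ → ℂ}
    (hna : ¬ AlgOver Ω B g h) : ∃ z ∈ Ω, h z ≠ 0 := by
  by_contra hcon
  push Not at hcon
  apply hna
  obtain ⟨z0, hz0⟩ := hne
  refine ⟨1, fun k => if k = 0 then 1 else 0, fun k => ?_, ⟨0, Nat.zero_le _, z0, hz0, ?_⟩, ?_⟩
  · by_cases hk : k = 0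
    · simp only [hk, if_true]
      exact B.one_mem
    · simp only [hk, if_false]
      exact B.zero_mem
  · simp
  · intro z hz
    rw [Finset.sum_range_succ, Finset.sum_range_one]
    simp [hcon z hz]


/-- **Curves given by linear differential systems.** -/
theorem ode_sp {F : ι → MvPolynomial (Fin (n + 1)) ℂ} (hFh : ∀ i, ∃ d, (F i).IsHomogeneous d)
    {Q : MvPolynomial (Fin (n + 1)) ℂ} {q : ℕ} (hQ : Q.IsHomogeneous q)
    (G : MvPolynomial (Fin (n + 1)) ℂ)
    (h : ∀ (e : Fin r → ℕ) P, IsSp F Q e P → aeval P G = 0) {Ω : Set ℂ}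
    {B : Subalgebra ℂ (ℂ → ℂ)} {f : ℂ → Fin (n + 1) → ℂ} (hf : OdeSp r F Q Ω B f) :
    ∀ z ∈ Ω, eval (f z) G = 0 := by
  classical
  have hne : Ω.Nonempty := by
    obtain ⟨_, s, _, _, _, _, _, ⟨z, hz, -⟩, -⟩ := hf.sys
    exact ⟨z, hz⟩
  obtain ⟨i, j, hij⟩ := hf.nalg
  obtain ⟨S, hh, Λ, mu, qq, w, γ, hSo, hSc, hSne, hSΩ, hmu, hh1, hhQ, hh0, hR, hw, hw0, hw1⟩ :=
    flow_genW hf.op hf.conn hf.ring f hf.an hf.sys j i (nz_of_nalg hne hij) hij Q
      (fun z hz => (hf.on z hz).2) hf.log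
  have hGan : AnalyticOnNhd ℂ (fun z => eval (f z) G) Ω := eval_an hf.an G
  have key : ∀ z ∈ S, w z * eval (f z) G = 0 := by
    intro z hz
    by_cases hc : ∀ t, hh z t i * f z j = hh z t j * f z i
    · rw [hw1 z hz hc, zero_mul]
    push Not at hc
    obtain ⟨t, ht⟩ := hc
    have h0 : hh z 0 = f z := hh0 z hz
    obtain ⟨e, P, hP, hP1⟩ := sp_of_epc (F := F) hFh hQ (Λ := Λ) (mu := mu) hmu
      (q := qq z) (h := hh z) (fun t j => hh1 z t j)
      (fun l t => hR (F l) (fun z' hz' => (hf.on z' (hSΩ hz')).1 l) z hz t) (γ := γ)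
      (by rw [h0]; exact (hf.on z (hSΩ hz)).2)
      (fun t => by rw [h0]; exact hhQ z hz t)
      ⟨t, i, j, by rw [h0]; exact ht⟩
    have h1 := eval_aeval P 1 G
    rw [h e P hP, Polynomial.eval_zero] at h1
    have h3 : (fun i => (P i).eval 1) = f z := by
      funext l
      rw [hP1, h0]
    rw [h3] at h1
    have h4 : eval (f z) G = 0 := h1.symm
    rw [h4, mul_zero]
  rcases AnalyticOnNhd.eq_zero_or_eq_zero_of_mul_eq_zero hw (hGan.mono hSΩ) key hSc with h1 | h1
  · obtain ⟨z, hz, hz'⟩ := hw0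
    exact absurd (h1 z hz) hz'
  · obtain ⟨z0, hz0⟩ := hSne
    have h3 : (fun z => eval (f z) G) =ᶠ[𝓝 z0] 0 := by
      filter_upwards [hSo.mem_nhds hz0] with z hz
      exact h1 z hz
    exact hGan.eqOn_zero_of_preconnected_of_eventuallyEq_zero hf.conn (hSΩ hz0) h3

/-- curves `z ↦ P (exp z)` -/
theorem ode_of_sp {F : ι → MvPolynomial (Fin (n + 1)) ℂ} {Q : MvPolynomial (Fin (n + 1)) ℂ}
    {e : Fin r → ℕ} {P : Fin (n + 1) → Polynomial ℂ} (h : IsSp F Q e P) :
    OdeSp r F Q univ (⊥ : Subalgebra ℂ (ℂ → ℂ)) (fun z i => (P i).eval (Complex.exp z)) := by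
  classical
  have hc : ∀ c : ℂ, (fun _ : ℂ => c) ∈ (⊥ : Subalgebra ℂ (ℂ → ℂ)) := fun c =>
    Subalgebra.algebraMap_mem _ c
  refine ⟨isOpen_univ, isPreconnected_univ, const_diffRing _, ?_, ?_, ?_, ?_, ?_⟩
  · intro j z _
    have h1 : Differentiable ℂ (fun z => (P j).eval (Complex.exp z)) :=
      (P j).differentiable.comp Complex.differentiable_exp
    exact h1.analyticAt z
  · intro z _
    exact sp_on h (Complex.exp_ne_zero z)
  · obtain ⟨U, hU⟩ := h.form
    refine ⟨r, fun _ => 1, fun i k _ => if i = k then (e i : ℂ) else 0, fun j k _ => U k j,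
      fun z k => Complex.exp z ^ e k, le_rfl, hc 1, ⟨0, mem_univ 0, one_ne_zero⟩,
      fun i k => hc _, fun j k => hc _, ?_⟩
    intro z _ _
    refine ⟨fun i => ?_, fun j => ?_⟩
    · refine ((Complex.hasDerivAt_exp z).fun_pow (e i)).congr_deriv ?_
      simp only [ite_mul, zero_mul, Finset.sum_ite_eq, Finset.mem_univ, if_true, div_one]
      by_cases h0 : e i = 0
      · simp [h0]
      · rw [mul_assoc, ← pow_succ, Nat.sub_add_cancel (Nat.one_le_iff_ne_zero.2 h0)]
    · rw [hU]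
      simp only [Polynomial.eval_finsetSum, Polynomial.eval_mul, Polynomial.eval_C,
        Polynomial.eval_pow, Polynomial.eval_X]
  · obtain ⟨c, m, hc0, hcm⟩ := h.off
    refine ⟨fun _ => 1, hc 1, fun _ => (m : ℂ), hc _, ⟨0, mem_univ 0, one_ne_zero⟩, ?_⟩
    intro z _ _
    have h1 : (fun w => eval (fun i => (P i).eval (Complex.exp w)) Q) =
        fun w => c * Complex.exp w ^ m := by
      funext w
      have h2 := eval_aeval P (Complex.exp w) Q
      rw [hcm] at h2
      refine Eq.trans h2.symm ?_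
      simp
    rw [h1]
    refine (((Complex.hasDerivAt_exp z).fun_pow m).const_mul c).congr_deriv ?_
    beta_reduce
    rw [div_one]
    by_cases h0 : m = 0
    · simp [h0]
    · rw [mul_assoc (m : ℂ), ← pow_succ, Nat.sub_add_cancel (Nat.one_le_iff_ne_zero.2 h0)]
      ring
  · obtain ⟨s, t, i, l, hs, ht, hne⟩ := h.nonconst
    let p : Fin (n + 1) → Polynomial ℂ := fun i => (P i).comp (Polynomial.C s * Polynomial.X)
    have hp : ∀ i z, (p i).eval z = (P i).eval (s * z) := by
      intro i z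
      simp [p, Polynomial.eval_comp]
    obtain ⟨a, b, -, hab⟩ := not_alg_poly p ⟨i, l, by
      intro h0
      have h1 := congrArg (fun R => Polynomial.eval (t / s) R) h0
      simp only [Polynomial.eval_mul, Polynomial.eval_C, hp, mul_one, mul_div_cancel₀ t hs] at h1
      apply hne
      linear_combination -h1⟩
    refine ⟨a, b, fun h0 => hab ?_⟩
    obtain ⟨m, c, hcB, ⟨k0, hk0, z0, -, hz0⟩, hsum⟩ := h0
    choose d hd using fun k => Algebra.mem_bot.1 (hcB k)
    have hcd : ∀ k z, c k z = d k := by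
      intro k z
      rw [← hd k]
      rfl
    refine ⟨m, c, hcB, ⟨k0, hk0, z0, mem_univ _, hz0⟩, ?_⟩
    intro z _
    have h1 : (∑ k ∈ Finset.range (m + 1), Polynomial.C (d k) * P a ^ k * P b ^ (m - k)) = 0 := by
      apply poly_zero_of_ne
      intro t ht
      obtain ⟨w, hw⟩ : ∃ w, Complex.exp w = t := ⟨Complex.log t, Complex.exp_log ht⟩
      have h2 := hsum w (mem_univ w)
      rw [Polynomial.eval_finsetSum]
      simp only [Polynomial.eval_mul, Polynomial.eval_C, Polynomial.eval_pow]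
      rw [← h2]
      refine Finset.sum_congr rfl fun k _ => ?_
      beta_reduce
      rw [hcd, hw]
    have h2 := congrArg (fun R => Polynomial.eval (s * z) R) h1
    simp only [Polynomial.eval_finsetSum, Polynomial.eval_mul, Polynomial.eval_C,
      Polynomial.eval_pow, Polynomial.eval_zero] at h2
    rw [← h2]
    refine Finset.sum_congr rfl fun k _ => ?_
    beta_reduce
    rw [hcd, hp, hp]

end Pool.Agent.Q33.OD
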