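import Pool.Agent.Q33.OD.MainW
import Pool.Agent.TH143.Global

/-!
Curves on the punctured disc with an essential singularity, and transcendental entire curves.
-/

set_option autoImplicit false

namespace Pool.Agent.Q33.OD

open MvPolynomial Metric Set Filter Topology Pool.Agent.TH143 Pool.Agent.TH143.GT Pool.Agent.Q33.SP
open Pool.Agent.W603.BP

variable {n r : ℕ} {ι : Type}

/-- holomorphic functions on a punctured disc, meromorphic at the origin -/
def coefB (δ : ℝ) : Subalgebra ℂ (ℂ → ℂ) where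
  carrier := {b | AnalyticOnNhd ℂ b (PB δ) ∧ MeromorphicAt b 0}
  mul_mem' := fun ha hb => ⟨ha.1.mul hb.1, ha.2.mul hb.2⟩
  add_mem' := fun ha hb => ⟨ha.1.add hb.1, ha.2.add hb.2⟩
  algebraMap_mem' := fun _ => ⟨analyticOnNhd_const, MeromorphicAt.const _ _⟩

theorem coefB_ring (δ : ℝ) : DiffRing (PB δ) (coefB δ) :=
  ⟨fun _ hb => hb.1, fun b hb => ⟨deriv b, ⟨hb.1.deriv, hb.2.deriv⟩, fun z hz =>
    (hb.1 z hz).differentiableAt.hasDerivAt⟩⟩

/-- A holomorphic map from the punctured unit disc to `F = 0`, `Q ≠ 0` with an essential singularity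
at the origin, given near the origin by a linear differential system with at most `r` rows and
meromorphic coefficients. -/
structure PuncOde (r : ℕ) (F : ι → MvPolynomial (Fin (n + 1)) ℂ)
    (Q : MvPolynomial (Fin (n + 1)) ℂ) (f : ℂ → Fin (n + 1) → ℂ) : Prop where
  an : ∀ i, AnalyticOnNhd ℂ (fun w => f w i) {w : ℂ | w ≠ 0 ∧ ‖w‖ < 1}
  on : ∀ w : ℂ, w ≠ 0 → ‖w‖ < 1 → OnX F Q (f w)
  sys : ∃ (m : ℕ) (A : Fin m → Fin m → ℂ → ℂ) (y : ℂ → Fin m → ℂ)
    (L : Fin (n + 1) → Fin m → ℂ → ℂ), m ≤ r ∧ (∀ i k, MeromorphicAt (A i k) 0) ∧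
    (∀ j k, MeromorphicAt (L j k) 0) ∧ ∀ᶠ w in 𝓝[≠] (0 : ℂ),
      (∀ i, HasDerivAt (fun w => y w i) (∑ k, A i k w * y w k) w) ∧
      ∀ j, f w j = ∑ k, L j k w * y w k
  ess : Ess f

theorem grow_mero {c : ℂ → ℂ} (hc : MeromorphicAt c 0) : Grow c := by
  obtain ⟨C, K, hC, h⟩ := mero_bound hc
  refine ⟨C, K, hC, ?_⟩
  filter_upwards [h, self_mem_nhdsWithin] with w hw h0
  have h1 : 0 < ‖w‖ ^ K := pow_pos (norm_pos_iff.2 h0) K
  have h2 : ‖c w‖ ≤ C * (‖w‖ ^ K)⁻¹ := by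
    rw [← div_eq_mul_inv, le_div_iff₀ h1]
    exact hw
  linarith [Real.add_one_le_exp (C * (‖w‖ ^ K)⁻¹)]

/-- the curve near the puncture -/
theorem PuncOde.ode {F : ι → MvPolynomial (Fin (n + 1)) ℂ} {Q : MvPolynomial (Fin (n + 1)) ℂ}
    {f : ℂ → Fin (n + 1) → ℂ} (hf : PuncOde r F Q f) :
    ∃ δ > 0, δ ≤ 1 ∧ OdeSp r F Q (PB δ) (coefB δ) f := by
  classical
  obtain ⟨m, A, y, L, hm, hA, hL, hyf⟩ := hf.sys
  have hAan : ∀ᶠ w in 𝓝[≠] (0 : ℂ), ∀ i k, AnalyticAt ℂ (A i k) w := by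
    rw [eventually_all]
    intro i
    rw [eventually_all]
    intro k
    exact Pun.mero (hA i k)
  have hLan : ∀ᶠ w in 𝓝[≠] (0 : ℂ), ∀ j k, AnalyticAt ℂ (L j k) w := by
    rw [eventually_all]
    intro i
    rw [eventually_all]
    intro k
    exact Pun.mero (hL i k)
  have hqan : AnalyticOnNhd ℂ (fun w => eval (f w) Q) (PB 1) := SP.eval_an hf.an Q
  obtain ⟨C, K, hC, hgr⟩ := growth_sol A hA y (hyf.mono fun w hw => hw.1)
  have hfgr : ∀ j, Grow (fun w => f w j) := by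
    intro j
    have h2 : Grow (fun w => ∑ k, L j k w * y w k) := Grow.sum _ fun k _ =>
      (grow_mero (hL j k)).mul ⟨C, K, hC, by filter_upwards [hgr] with w hw using hw k⟩
    exact h2.congr (by filter_upwards [hyf] with w hw using hw.2 j)
  obtain ⟨C', K', hC', hgrQ⟩ := Grow.eval hfgr Q
  obtain ⟨b, hb, hbd⟩ := logderiv_mero hqan (fun w hw => (hf.on w hw.1 hw.2).2) hC' hgrQ
  obtain ⟨δ0, hδ0, hall⟩ := ev_iff.mp ((hyf.and (hAan.and hLan)).and (hbd.and (Pun.mero hb)))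
  set δ := min δ0 1 with hδ
  have hδpos : 0 < δ := by positivity
  have hδ1 : PB δ ⊆ PB 1 := PB_mono (min_le_right _ _)
  have hδ0' : PB δ ⊆ PB δ0 := PB_mono (min_le_left _ _)
  obtain ⟨z0, hz0⟩ := PB_nonempty hδpos
  refine ⟨δ, hδpos, min_le_right _ _, PB_open δ, PB_preconn hδpos, coefB_ring δ,
    fun j => (hf.an j).mono hδ1, fun z hz => hf.on z (hδ1 hz).1 (hδ1 hz).2, ?_, ?_, ?_⟩
  · refine ⟨m, fun _ => 1, A, L, y, hm, (coefB δ).one_mem, ⟨z0, hz0, one_ne_zero⟩,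
      fun i k => ⟨fun w hw => (hall w (hδ0' hw)).1.2.1 i k, hA i k⟩,
      fun i k => ⟨fun w hw => (hall w (hδ0' hw)).1.2.2 i k, hL i k⟩, fun z hz _ => ⟨fun i => ?_,
        (hall z (hδ0' hz)).1.1.2⟩⟩
    rw [div_one]
    exact (hall z (hδ0' hz)).1.1.1 i
  · refine ⟨fun _ => 1, (coefB δ).one_mem, b, ⟨fun w hw => (hall w (hδ0' hw)).2.2, hb⟩,
      ⟨z0, hz0, one_ne_zero⟩, fun z hz _ => ?_⟩
    rw [div_one]
    exact (hall z (hδ0' hz)).2.1
  · obtain ⟨i, l, hnz, hnm⟩ := hf.ess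
    refine ⟨i, l, ?_⟩
    rintro ⟨k, c, hcB, ⟨k0, hk0, z1, hz1, hc1⟩, hsum⟩
    apply hnm
    refine mrel_of_alg (on_pun one_pos (hf.an i)) (on_pun one_pos (hf.an l)) hnz k c
      (fun j => (hcB j).2) ⟨k0, hk0, fun h0 => hc1 (eq_zero_on hδpos (hcB k0).1 h0 z1 hz1)⟩ ?_
    exact ev_iff.2 ⟨δ, hδpos, fun w hw => hsum w hw⟩

theorem PuncOde.zero {F : ι → MvPolynomial (Fin (n + 1)) ℂ} {Q : MvPolynomial (Fin (n + 1)) ℂ}
    {f : ℂ → Fin (n + 1) → ℂ} (hf : PuncOde r F Q f) {G : MvPolynomial (Fin (n + 1)) ℂ}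
    (h : ∀ (Ω : Set ℂ) (B : Subalgebra ℂ (ℂ → ℂ)) f, OdeSp r F Q Ω B f → ∀ z ∈ Ω, eval (f z) G = 0)
    {w : ℂ} (hw : w ≠ 0) (hw1 : ‖w‖ < 1) : eval (f w) G = 0 := by
  obtain ⟨δ, hδ, hδ1, hO⟩ := hf.ode
  have h1 := h _ _ _ hO
  have han : AnalyticOnNhd ℂ (fun w => eval (f w) G) (PB 1) := SP.eval_an hf.an G
  exact eq_zero_on one_pos han (ev_iff.2 ⟨δ, hδ, h1⟩) w ⟨hw, hw1⟩

/-- the curves `w ↦ P (exp (1 / w))` -/
theorem punc_of_sp {F : ι → MvPolynomial (Fin (n + 1)) ℂ} {Q : MvPolynomial (Fin (n + 1)) ℂ}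
    {e : Fin r → ℕ} {P : Fin (n + 1) → Polynomial ℂ} (h : IsSp F Q e P) :
    PuncOde r F Q (fun w i => (P i).eval (Complex.exp w⁻¹)) := by
  classical
  have hexp : ∀ w : ℂ, w ≠ 0 → AnalyticAt ℂ (fun w : ℂ => Complex.exp w⁻¹) w := fun w hw =>
    (analyticAt_inv hw).cexp
  refine ⟨fun i w hw => ?_, fun w _ _ => sp_on h (Complex.exp_ne_zero _), ?_, ?_⟩
  · exact AnalyticAt.comp (g := fun z => (P i).eval z) (f := fun w : ℂ => Complex.exp w⁻¹)
      ((P i).differentiable.analyticAt _) (hexp w hw.1)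
  · obtain ⟨U, hU⟩ := h.form
    refine ⟨r, fun i k w => if i = k then -(e i : ℂ) * (w ^ 2)⁻¹ else 0,
      fun w k => Complex.exp w⁻¹ ^ e k, fun j k _ => U k j, le_rfl, fun i k => ?_,
      fun j k => MeromorphicAt.const _ _, ?_⟩
    · by_cases hik : i = k
      · simp only [hik, if_true]
        exact (MeromorphicAt.const _ _).fun_mul (((MeromorphicAt.id 0).fun_pow 2).fun_inv)
      · simp only [hik, if_false]
        exact MeromorphicAt.const _ _
    · filter_upwards [self_mem_nhdsWithin] with w hw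
      have hw0 : w ≠ 0 := hw
      refine ⟨fun i => ?_, fun j => ?_⟩
      · have h1 : HasDerivAt (fun w : ℂ => Complex.exp w⁻¹) (Complex.exp w⁻¹ * (-(w ^ 2)⁻¹)) w :=
          (hasDerivAt_inv hw0).cexp
        refine (h1.fun_pow (e i)).congr_deriv ?_
        simp only [ite_mul, zero_mul, Finset.sum_ite_eq, Finset.mem_univ, if_true]
        by_cases h0 : e i = 0
        · simp [h0]
        · obtain ⟨k, hk⟩ := Nat.exists_eq_succ_of_ne_zero h0
          rw [hk, Nat.succ_sub_one, Nat.succ_eq_add_one, pow_succ (Complex.exp w⁻¹) k]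
          ring
      · rw [hU]
        simp only [Polynomial.eval_finsetSum, Polynomial.eval_mul, Polynomial.eval_C,
          Polynomial.eval_pow, Polynomial.eval_X]
  · obtain ⟨s, t, i, l, -, -, hne⟩ := h.nonconst
    exact ess_exp (f := fun z i => (P i).eval z) (fun i => (P i).differentiable) ⟨s, t, i, l, hne⟩

/-- polynomial coefficients -/
def polyB : Subalgebra ℂ (ℂ → ℂ) where
  carrier := {b | ∃ P : Polynomial ℂ, b = fun z => P.eval z}
  mul_mem' := by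
    rintro _ _ ⟨P, rfl⟩ ⟨P', rfl⟩
    exact ⟨P * P', funext fun z => by simp⟩
  add_mem' := by
    rintro _ _ ⟨P, rfl⟩ ⟨P', rfl⟩
    exact ⟨P + P', funext fun z => by simp⟩
  algebraMap_mem' := fun c => ⟨Polynomial.C c, funext fun z => by simp⟩

/-- An entire curve in `F = 0`, `Q ≠ 0` with an essential singularity at infinity, given by a linear
differential system with at most `r` rows and coefficients in `ℂ[z]`. -/
structure EntOde (r : ℕ) (F : ι → MvPolynomial (Fin (n + 1)) ℂ)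
    (Q : MvPolynomial (Fin (n + 1)) ℂ) (f : ℂ → Fin (n + 1) → ℂ) : Prop where
  an : ∀ i, Differentiable ℂ (fun w => f w i)
  on : ∀ w : ℂ, OnX F Q (f w)
  sys : LinSys r univ polyB f
  ess : Ess (fun w => f w⁻¹)

theorem EntOde.punc {F : ι → MvPolynomial (Fin (n + 1)) ℂ} {Q : MvPolynomial (Fin (n + 1)) ℂ}
    {f : ℂ → Fin (n + 1) → ℂ} (hf : EntOde r F Q f) : PuncOde r F Q (fun w => f w⁻¹) := by
  classical
  refine ⟨fun i w hw => ?_, fun w _ _ => hf.on _, ?_, hf.ess⟩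
  · exact AnalyticAt.comp (g := fun z => f z i) (f := fun w : ℂ => w⁻¹)
      ((hf.an i).analyticAt _) (analyticAt_inv hw.1)
  · obtain ⟨m, s, A, M, y, hm, ⟨p, hp⟩, ⟨z0, -, hz0⟩, hA, hM, hsys⟩ := hf.sys
    choose a ha using hA
    choose b hb using hM
    have hp0 : p ≠ 0 := by
      rintro rfl
      apply hz0
      rw [hp]
      simp
    refine ⟨m, fun i k w => -(w ^ 2)⁻¹ * ((a i k).eval w⁻¹ * ((p.eval w⁻¹)⁻¹)),
      fun w => y w⁻¹, fun j k w => (b j k).eval w⁻¹, hm, fun i k => ?_, fun j k => mero_poly_inv _,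
      ?_⟩
    · exact ((((MeromorphicAt.id 0).fun_pow 2).fun_inv).fun_neg).fun_mul
        ((mero_poly_inv _).fun_mul (mero_poly_inv _).fun_inv)
    · filter_upwards [self_mem_nhdsWithin, ev_poly_inv hp0] with w hw hpw
      have hw0 : w ≠ 0 := hw
      have hs : s w⁻¹ ≠ 0 := by
        rw [hp]
        exact hpw
      obtain ⟨h1, h2⟩ := hsys w⁻¹ (mem_univ _) hs
      refine ⟨fun i => ?_, fun j => ?_⟩
      · have h3 := (h1 i).scomp w (hasDerivAt_inv hw0)
        refine h3.congr_deriv ?_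
        rw [smul_eq_mul, hp, Finset.sum_div, Finset.mul_sum]
        refine Finset.sum_congr rfl fun k _ => ?_
        rw [ha i k]
        ring
      · rw [h2 j]
        refine Finset.sum_congr rfl fun k _ => ?_
        rw [hb j k]

/-- the curves `z ↦ P (exp z)` -/
theorem ent_of_sp {F : ι → MvPolynomial (Fin (n + 1)) ℂ} {Q : MvPolynomial (Fin (n + 1)) ℂ}
    {e : Fin r → ℕ} {P : Fin (n + 1) → Polynomial ℂ} (h : IsSp F Q e P) :
    EntOde r F Q (fun w i => (P i).eval (Complex.exp w)) := by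
  have h1 := ode_of_sp h
  refine ⟨fun i => (P i).differentiable.comp Complex.differentiable_exp, fun w =>
    sp_on h (Complex.exp_ne_zero _), ?_, ?_⟩
  · obtain ⟨m, s, A, M, y, hm, hs, h0, hA, hM, hsys⟩ := h1.sys
    have hle : (⊥ : Subalgebra ℂ (ℂ → ℂ)) ≤ polyB := bot_le
    exact ⟨m, s, A, M, y, hm, hle hs, h0, fun i k => hle (hA i k), fun i k => hle (hM i k), hsys⟩
  · obtain ⟨s, t, i, l, -, -, hne⟩ := h.nonconst
    exact ess_exp (f := fun z i => (P i).eval z) (fun i => (P i).differentiable) ⟨s, t, i, l, hne⟩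

end Pool.Agent.Q33.OD
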